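import Mathlib
import Pool.Agent.TH461.SST.Core
import Pool.Agent.TH461.SST.Pen
import Pool.Agent.TH461.SST.Red
import Pool.Agent.TH461.SST.Gap
import Pool.Agent.TH461.SST.Comp
import Pool.Agent.TH461.SST.Basis
import Pool.Agent.TH461.SST.CB
import Pool.Agent.TH461.SST.SF
import Pool.Agent.TH461.SST.Dich
import Pool.Agent.TH461.SST.Hp
import Pool.Agent.TH461.SST.AuxA
import Pool.Agent.TH461.SST.Expand
import Pool.Agent.TH461.SST.Vanish
import Pool.Agent.TH461.SST.Est
import Pool.Agent.TH461.SST.Sub

/-!
# The `S`-adic subspace theorem over the rationals, assembled from the pieces of project SST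
-/

set_option autoImplicit false

namespace Pool.Agent.TH551.SU

open Pool.Agent.TH461.SST

/-- the subspace theorem -/
theorem sst : SubspaceStmt :=
  Sub.subspace (Pen.pen (Core.core Aux.aux (Vanish.vanish Expand.expand) Est.est)
      Hp.height_pair Dich.dich) CB.cb (SF.sf CB.cb)
    (Red.red Basis.basis CB.cb (SF.sf CB.cb) Gap.gap (Comp.comp CB.cb (SF.sf CB.cb)))

end Pool.Agent.TH551.SU
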