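import Mathlib
import Pool.Agent.TH551.SU.Sst
import Pool.Agent.TH932.Germs
import Pool.Agent.H533R3.SL.Cur

/-!
# Project SU: sums of S-units with small coefficients, statements

`GG` is the field of germs of rational sequences along the hyperfilter `UU`, `KK L hL` its subfield
of germs of negligible height (numerator and denominator at most `exp (ε L n)` for every `ε > 0`).
-/

set_option autoImplicit false

namespace Pool.Agent.TH551.SU

open Filter Topology Pool.Agent.TH932.Germs Pool.Agent.H533R3.SL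

/-- up to sign, `x` is a product of integral powers of the numbers `b v` -/
def IsSU {s : ℕ} (b : Fin s → ℕ) (x : ℚ) : Prop :=
  ∃ (σ : ℤ) (e : Fin s → ℤ), (σ = 1 ∨ σ = -1) ∧ x = σ * ∏ v, (b v : ℚ) ^ (e v)

/-- germs of sequences of `b`-units -/
def GSU {s : ℕ} (b : Fin s → ℕ) (g : GG) : Prop :=
  ∃ a : ℕ → ℚ, g = gm a ∧ ∀ n, IsSU b (a n)

/-- `SUI`: independence of `S`-unit germs over the field of negligible germs -/
def SUIStmt : Prop :=
  ∀ (s : ℕ) (b : Fin s → ℕ) (_ : ∀ v, (b v).Prime) (_ : Function.Injective b) (L : ℕ → ℝ)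
    (hL : Tendsto L atTop atTop) (m : ℕ) (u : Fin m → GG) (_ : ∀ i, GSU b (u i))
    (_ : ∀ i j, i ≠ j → u i / u j ∉ KK L hL) (c : Fin m → KK L hL)
    (_ : ∑ i, (c i : GG) * u i = 0), ∀ i, c i = 0

/-- `CS`: in a vanishing combination of `S`-unit germs with negligible coefficients, the sums over
the fibres of `w` vanish if `w` is constant on the classes modulo the negligible field -/
def CSStmt : Prop :=
  ∀ (s : ℕ) (b : Fin s → ℕ) (_ : ∀ v, (b v).Prime) (_ : Function.Injective b) (L : ℕ → ℝ)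
    (hL : Tendsto L atTop atTop) (ι : Type) (A : Finset ι) (a : ι → KK L hL) (g : ι → GG)
    (w : ι → ℕ) (_ : ∀ i ∈ A, GSU b (g i))
    (_ : ∀ i ∈ A, ∀ j ∈ A, g i / g j ∈ KK L hL → w i = w j)
    (_ : ∑ i ∈ A, (a i : GG) * g i = 0),
    ∑ i ∈ A, Polynomial.C ((a i : GG) * g i) * Polynomial.X ^ (w i) = 0

/-- `WT`: weights compatible with the multiplicative relations modulo the negligible field -/
def WTStmt : Prop :=
  ∀ (L : ℕ → ℝ) (hL : Tendsto L atTop atTop) (r : ℕ) (u : Fin r → GG) (_ : ∀ j, u j ≠ 0),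
    ∃ l : Fin r → ℕ,
      (∀ α β : Fin r → ℕ, ∑ j, α j = ∑ j, β j →
        (∏ j, u j ^ (α j)) / (∏ j, u j ^ (β j)) ∈ KK L hL → ∑ j, α j * l j = ∑ j, β j * l j) ∧
      ∀ j j', l j = l j' → u j / u j' ∈ KK L hL

/-- `CRV`: a germ of points that are short sums of `S`-units lies on a rational curve, or its
height is negligible -/
def CRVStmt : Prop :=
  ∀ (s : ℕ) (b : Fin s → ℕ) (_ : ∀ v, (b v).Prime) (_ : Function.Injective b) (L : ℕ → ℝ)
    (hL : Tendsto L atTop atTop) (n r : ℕ) (FF : Set (MvPolynomial (Fin (n + 1)) ℚ))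
    (_ : ∀ F ∈ FF, ∃ e, F.IsHomogeneous e) (u : Fin r → GG) (_ : ∀ j, GSU b (u j))
    (V : Fin r → Fin (n + 1) → KK L hL)
    (_ : ∀ F ∈ FF, MvPolynomial.aeval (fun i => ∑ j, u j * (V j i : GG)) F = 0)
    (_ : ∃ i, ∑ j, u j * (V j i : GG) ≠ 0),
    ∃ l : Fin r → ℕ,
      (∀ F ∈ FF, MvPolynomial.aeval (cur (fun j i => u j * (V j i : GG)) l) F = 0) ∧
      ((∃ i i', cur (fun j i => u j * (V j i : GG)) l i * Polynomial.C (∑ j, u j * (V j i' : GG)) ≠
          cur (fun j i => u j * (V j i : GG)) l i' * Polynomial.C (∑ j, u j * (V j i : GG))) ∨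
        ∃ (μ : GG) (z : Fin (n + 1) → KK L hL), μ ≠ 0 ∧
          ∀ i, ∑ j, u j * (V j i : GG) = μ * (z i : GG))

lemma abs_le_of_dvd {a b : ℤ} (h : a ∣ b) (hb : b ≠ 0) : |(a : ℝ)| ≤ |(b : ℝ)| := by
  have h1 : |a| ∣ |b| := (abs_dvd_abs a b).2 h
  have h2 := Int.le_of_dvd (abs_pos.2 hb) h1
  exact_mod_cast h2

/-- numerator and denominator of a negligible germ are negligible -/
lemma mem_KK_iff {L : ℕ → ℝ} (hL : Tendsto L atTop atTop) (a : ℕ → ℚ) :
    gm a ∈ KK L hL ↔ Negl L (fun n => (a n).num) ∧ Negl L (fun n => ((a n).den : ℤ)) := by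
  constructor
  · rintro ⟨m, d, hm, hd, hd0, hg⟩
    rw [gm_eq] at hg
    constructor
    · intro ε hε
      filter_upwards [hm ε hε, hd0, hg] with n h1 h2 h3
      rw [h3]
      refine le_trans ?_ h1
      by_cases h4 : m n = 0
      · rw [h4]
        simp
      · have h5 := Rat.num_dvd (m n) h2
        rw [Rat.divInt_eq_div] at h5
        exact abs_le_of_dvd h5 h4
    · intro ε hε
      filter_upwards [hd ε hε, hd0, hg] with n h1 h2 h3
      rw [h3]
      refine le_trans ?_ h1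
      have h5 := Rat.den_dvd (m n) (d n)
      rw [Rat.divInt_eq_div] at h5
      exact abs_le_of_dvd h5 h2
  · rintro ⟨h1, h2⟩
    refine ⟨_, _, h1, h2, Eventually.of_forall fun n => ?_, ?_⟩
    · exact_mod_cast (a n).den_ne_zero
    · congr 1
      funext n
      exact_mod_cast (Rat.num_div_den (a n)).symm

end Pool.Agent.TH551.SU
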