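import Mathlib
import Pool.Agent.TH551.SU.Stms

/-!
# Project SU: normalisation of families of units
-/

set_option autoImplicit false

namespace Pool.Agent.TH551.SU.SUI

open Filter Topology Pool.Agent.TH932.Germs Pool.Agent.TH551.SU

/-- a finite family of units, divided by a common unit, consists of coprime integers -/
lemma normalise {s m : ℕ} (b : Fin s → ℕ) (hb : ∀ v, 2 ≤ b v) (a : Fin (m + 1) → ℚ)
    (ha : ∀ i, IsSU b (a i)) :
    ∃ (g : ℚ) (U : Fin (m + 1) → ℤ) (e : Fin s → Fin (m + 1) → ℕ), g ≠ 0 ∧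
      (∀ i, a i = g * U i) ∧ (∀ i, |(U i : ℝ)| = ∏ v, (b v : ℝ) ^ (e v i)) ∧
      (∀ i v, (b v : ℤ) ^ (e v i) ∣ U i) ∧ ∀ v, ∃ i, e v i = 0 := by
  choose σ E hσ hE using ha
  have hmin : ∀ v : Fin s, ∃ i : Fin (m + 1), ∀ j, E i v ≤ E j v :=
    fun v => Finite.exists_min fun i => E i v
  choose q hq using hmin
  have hb0 : ∀ v, (b v : ℚ) ≠ 0 := fun v => by
    have := hb v
    positivity
  have hU : ∀ i, (((σ i * ∏ v, (b v : ℤ) ^ ((E i v - E (q v) v).toNat) : ℤ)) : ℚ) =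
      σ i * ∏ v, (b v : ℚ) ^ (E i v - E (q v) v) := by
    intro i
    push_cast
    congr 1
    refine Finset.prod_congr rfl fun v _ => ?_
    rw [← zpow_natCast, Int.toNat_of_nonneg (sub_nonneg.2 (hq v i))]
  refine ⟨∏ v, (b v : ℚ) ^ (E (q v) v), fun i => σ i * ∏ v, (b v : ℤ) ^ ((E i v - E (q v) v).toNat),
    fun v i => (E i v - E (q v) v).toNat, ?_, ?_, ?_, ?_, ?_⟩
  · exact Finset.prod_ne_zero_iff.2 fun v _ => zpow_ne_zero _ (hb0 v)
  · intro i
    rw [hU, hE i]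
    rw [mul_left_comm, ← Finset.prod_mul_distrib]
    congr 1
    refine Finset.prod_congr rfl fun v _ => ?_
    rw [← zpow_add₀ (hb0 v)]
    congr 1
    ring
  · intro i
    push_cast
    rw [abs_mul, Finset.abs_prod]
    have h1 : |(σ i : ℝ)| = 1 := by
      rcases hσ i with h | h <;> simp [h]
    rw [h1, one_mul]
    refine Finset.prod_congr rfl fun v _ => ?_
    rw [abs_pow, Nat.abs_cast]
  · intro i v
    exact Dvd.dvd.mul_left (Finset.dvd_prod_of_mem _ (Finset.mem_univ v)) _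
  · intro v
    exact ⟨q v, by simp⟩

/-- pigeonhole for ultrafilters -/
lemma const_of_ev {ι : Type} [Finite ι] {p : ι → ℕ → Prop}
    (h : ∀ᶠ n in (UU : Filter ℕ), ∃ i, p i n) : ∃ i, ∀ᶠ n in (UU : Filter ℕ), p i n := by
  by_contra hc
  push Not at hc
  have h1 : ∀ i, ∀ᶠ n in (UU : Filter ℕ), ¬ p i n := fun i => hc i
  have h2 := eventually_all.2 h1
  obtain ⟨n, ⟨i, hi⟩, h3⟩ := (h.and h2).exists
  exact h3 i hi

lemma Negl.congr' {L : ℕ → ℝ} {m m' : ℕ → ℤ} (h : Negl L m)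
    (he : ∀ᶠ n in (UU : Filter ℕ), |(m' n : ℝ)| ≤ |(m n : ℝ)|) : Negl L m' := by
  intro ε hε
  filter_upwards [h ε hε, he] with n h1 h2 using h2.trans h1

lemma Negl.prod {L : ℕ → ℝ} (hL : Tendsto L atTop atTop) {ι : Type} (A : Finset ι)
    {m : ι → ℕ → ℤ} (h : ∀ i ∈ A, Negl L (m i)) : Negl L (fun n => ∏ i ∈ A, m i n) := by
  classical
  induction A using Finset.induction_on with
  | empty => simpa using Negl.one hL
  | insert a A ha ih =>
    have h1 := (h a (Finset.mem_insert_self _ _)).mul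
      (ih fun i hi => h i (Finset.mem_insert_of_mem hi))
    refine Negl.congr' h1 (Eventually.of_forall fun n => ?_)
    rw [Finset.prod_insert ha]

/-- if the quotient is not negligible one of the two integers is large -/
lemma large {L : ℕ → ℝ} (hL : Tendsto L atTop atTop) (U U' : ℕ → ℤ) (hU' : ∀ n, U' n ≠ 0)
    (h : gm (fun n => (U n : ℚ) / U' n) ∉ KK L hL) :
    ∃ ε : ℝ, 0 < ε ∧ ∀ᶠ n in (UU : Filter ℕ), Real.exp (ε * L n) < max |(U n : ℝ)| |(U' n : ℝ)| := by
  by_contra hc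
  push Not at hc
  apply h
  have h1 : ∀ ε : ℝ, 0 < ε → ∀ᶠ n in (UU : Filter ℕ),
      max |(U n : ℝ)| |(U' n : ℝ)| ≤ Real.exp (ε * L n) := fun ε hε => hc ε hε
  exact ⟨U, U', fun ε hε => (h1 ε hε).mono fun n hn => (le_max_left _ _).trans hn,
    fun ε hε => (h1 ε hε).mono fun n hn => (le_max_right _ _).trans hn,
    Eventually.of_forall hU', rfl⟩

/-- clearing denominators in a relation -/
lemma clear {L : ℕ → ℝ} (hL : Tendsto L atTop atTop) {m : ℕ} (c : Fin m → KK L hL)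
    (hc : ∀ i, c i ≠ 0) (a : Fin m → ℕ → ℚ) (h : ∑ i, (c i : GG) * gm (a i) = 0) :
    ∃ (C : Fin m → ℕ → ℤ) (D : ℕ → ℚ), (∀ i, Negl L (C i)) ∧
      (∀ᶠ n in (UU : Filter ℕ), D n ≠ 0) ∧ (∀ i, gm (fun n => (C i n : ℚ)) = gm D * c i) ∧
      (∀ᶠ n in (UU : Filter ℕ), ∀ i, C i n ≠ 0) ∧
      ∀ᶠ n in (UU : Filter ℕ), ∑ i, (C i n : ℚ) * a i n = 0 := by
  classical
  have h0 : ∀ i, ∃ m d : ℕ → ℤ, Negl L m ∧ Negl L d ∧ (∀ᶠ n in (UU : Filter ℕ), d n ≠ 0) ∧
    (c i : GG) = gm fun n => (m n : ℚ) / d n := fun i => (c i).2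
  choose M d hM hd hd0 hg using h0
  have hd1 : ∀ᶠ n in (UU : Filter ℕ), ∀ i, d i n ≠ 0 := eventually_all.2 hd0
  have hM0 : ∀ᶠ n in (UU : Filter ℕ), ∀ i, M i n ≠ 0 := by
    refine eventually_all.2 fun i => ?_
    have h1 : (c i : GG) ≠ 0 := fun h2 => hc i (Subtype.ext h2)
    rw [hg, gm_ne_zero] at h1
    filter_upwards [h1] with n hn h2
    apply hn
    rw [h2]
    simp
  have key : ∀ i n, (∀ j, d j n ≠ 0) → ((M i n * ∏ j ∈ Finset.univ.erase i, d j n : ℤ) : ℚ) =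
      (∏ j, (d j n : ℚ)) * ((M i n : ℚ) / d i n) := by
    intro i n hn
    have h2 : (d i n : ℚ) ≠ 0 := by exact_mod_cast hn i
    rw [← Finset.mul_prod_erase _ _ (Finset.mem_univ i)]
    push_cast
    field_simp
  refine ⟨fun i n => M i n * ∏ j ∈ Finset.univ.erase i, d j n, fun n => ∏ j, (d j n : ℚ),
    fun i => (hM i).mul (Negl.prod hL _ fun j _ => hd j), ?_, ?_, ?_, ?_⟩
  · filter_upwards [hd1] with n hn
    exact Finset.prod_ne_zero_iff.2 fun j _ => by exact_mod_cast hn j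
  · intro i
    rw [hg, gm_mul, gm_eq]
    filter_upwards [hd1] with n hn using key i n hn
  · filter_upwards [hd1, hM0] with n hn h1 i
    exact mul_ne_zero (h1 i) (Finset.prod_ne_zero_iff.2 fun j _ => hn j)
  · have h1 : gm (fun n => ∑ i, ((M i n : ℚ) / d i n) * a i n) = 0 := by
      rw [← h]
      have h2 : ∀ A : Finset (Fin m), gm (fun n => ∑ i ∈ A, ((M i n : ℚ) / d i n) * a i n) =
          ∑ i ∈ A, (c i : GG) * gm (a i) := by
        intro A
        induction A using Finset.induction_on with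
        | empty => simp [gm_zero]
        | insert x A hx ih =>
          rw [Finset.sum_insert hx, ← ih, hg, gm_mul, gm_add]
          congr 1
          funext n
          rw [Finset.sum_insert hx]
      exact h2 _
    rw [← gm_zero, gm_eq] at h1
    filter_upwards [h1, hd1] with n h2 h3
    calc ∑ i, ((M i n * ∏ j ∈ Finset.univ.erase i, d j n : ℤ) : ℚ) * a i n
        = ∑ i, (∏ j, (d j n : ℚ)) * (((M i n : ℚ) / d i n) * a i n) := by
          refine Finset.sum_congr rfl fun i _ => ?_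
          rw [key i n h3]
          ring
      _ = 0 := by rw [← Finset.mul_sum, h2, mul_zero]

end Pool.Agent.TH551.SU.SUI
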