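import Mathlib
import Pool.Agent.TH551.SU.Norm

/-!
# Project SU: independence of S-unit germs over the negligible field
-/

set_option autoImplicit false

namespace Pool.Agent.TH551.SU.SUI

open Filter Topology Pool.Agent.TH932.Germs Pool.Agent.TH551.SU Pool.Agent.TH461.SST

/-- the vector with sum zero with the given coordinates `x j` at `j + 1` -/
def ext {m : ℕ} (x : Fin m → ℤ) : Fin (m + 1) → ℤ := Fin.cons (-∑ j, x j) x

/-- the coordinates different from `k` of the vector `ext x`, as linear forms in `x` -/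
def Mk {m : ℕ} (k : Fin (m + 1)) : Matrix (Fin m) (Fin m) ℤ :=
  fun l j => ext (Pi.single j 1) (k.succAbove l)

lemma Mk_apply {m : ℕ} (k : Fin (m + 1)) (x : Fin m → ℤ) (l : Fin m) :
    ∑ j, Mk k l j * x j = ext x (k.succAbove l) := by
  unfold Mk ext
  induction k.succAbove l using Fin.cases with
  | zero =>
    simp only [Fin.cons_zero]
    rw [← Finset.sum_neg_distrib]
    refine Finset.sum_congr rfl fun j _ => ?_
    rw [Finset.sum_pi_single']
    simp
  | succ q =>
    simp only [Fin.cons_succ]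
    rw [Finset.sum_eq_single q]
    · simp
    · intro j _ hj
      rw [Pi.single_eq_of_ne (Ne.symm hj), zero_mul]
    · intro h
      exact absurd (Finset.mem_univ _) h

lemma sum_ext {m : ℕ} (x : Fin m → ℤ) : ∑ i, ext x i = 0 := by
  rw [Fin.sum_univ_succ]
  unfold ext
  simp

lemma ext_of {m : ℕ} (X : Fin (m + 1) → ℤ) (h : ∑ i, X i = 0) :
    ext (fun j => X j.succ) = X := by
  funext i
  unfold ext
  induction i using Fin.cases with
  | zero =>
    rw [Fin.cons_zero]
    rw [Fin.sum_univ_succ] at h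
    linarith
  | succ q => rw [Fin.cons_succ]

lemma Mk_det {m : ℕ} (k : Fin (m + 1)) : (Mk k).det ≠ 0 := by
  intro h
  obtain ⟨x, hx, h1⟩ := Matrix.exists_mulVec_eq_zero_iff.2 h
  apply hx
  have h2 : ∀ l, ext x (k.succAbove l) = 0 := by
    intro l
    rw [← Mk_apply]
    exact congrFun h1 l
  have h3 : ext x k = 0 := by
    have h4 := sum_ext x
    rw [Fin.sum_univ_succAbove _ k, Finset.sum_eq_zero fun l _ => h2 l, add_zero] at h4
    exact h4
  have h5 : ∀ i, ext x i = 0 := by
    intro i
    by_cases hi : i = k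
    · rw [hi, h3]
    · obtain ⟨l, rfl⟩ := Fin.exists_succAbove_eq hi
      exact h2 l
  funext j
  have := h5 j.succ
  unfold ext at this
  rw [Fin.cons_succ] at this
  exact this

/-- the good indices of the sequence -/
structure Good {s m : ℕ} (b : Fin s → ℕ) (ε : ℝ) (L : ℕ → ℝ) (C : Fin (m + 1) → ℕ → ℤ)
    (U : ℕ → Fin (m + 1) → ℤ) (e : ℕ → Fin s → Fin (m + 1) → ℕ) (kI : Fin (m + 1))
    (kv : Fin s → Fin (m + 1)) (n : ℕ) : Prop where
  rel : ∑ i, C i n * U n i = 0
  ne : ∀ i, C i n ≠ 0
  big : ∀ i, |(U n i : ℝ)| ≤ |(U n kI : ℝ)|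
  zero : ∀ v, e n v (kv v) = 0
  large : Real.exp (ε * L n) ≤ |(U n kI : ℝ)|
  small : ∀ i, |(C i n : ℝ)| ≤ Real.exp (ε / (2 * (m + 1)) * L n)

/-- the subspace theorem for the good indices -/
lemma apply_sst {s m : ℕ} (hm : 1 ≤ m) (b : Fin s → ℕ) (hb : ∀ v, (b v).Prime)
    (hbi : Function.Injective b) (L : ℕ → ℝ) (hL : Tendsto L atTop atTop) (ε : ℝ) (hε : 0 < ε)
    (C : Fin (m + 1) → ℕ → ℤ)
    (U : ℕ → Fin (m + 1) → ℤ) (e : ℕ → Fin s → Fin (m + 1) → ℕ)
    (hUe : ∀ n i, |(U n i : ℝ)| = ∏ v, (b v : ℝ) ^ (e n v i))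
    (hdv : ∀ n i v, (b v : ℤ) ^ (e n v i) ∣ U n i)
    (kI : Fin (m + 1)) (kv : Fin s → Fin (m + 1)) (ν : ℕ → ℕ)
    (hν : Tendsto ν atTop atTop) (hg : ∀ t, Good b ε L C U e kI kv (ν t)) :
    ∃ y : Fin m → ℤ, y ≠ 0 ∧ ∃ᶠ t in atTop,
      ∑ l : Fin m, y l * (C l.succ (ν t) * U (ν t) l.succ) = 0 := by
  have hb2 : ∀ v, 2 ≤ b v := fun v => (hb v).two_le
  have hlb : ∀ v, 0 < Real.log (b v) := fun v => Real.log_pos (by exact_mod_cast hb2 v)
  have hU1 : ∀ n i, 1 ≤ |(U n i : ℝ)| := by
    intro n i
    have h1 : U n i ≠ 0 := by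
      intro h2
      have h3 := hUe n i
      rw [h2, Int.cast_zero, abs_zero] at h3
      have h4 : (0 : ℝ) < ∏ v, (b v : ℝ) ^ (e n v i) := Finset.prod_pos fun v _ => by
        have := hb2 v
        positivity
      linarith
    exact_mod_cast Int.one_le_abs h1
  have hlU : ∀ n i, Real.log |(U n i : ℝ)| = ∑ v, (e n v i : ℝ) * Real.log (b v) := by
    intro n i
    rw [hUe, Real.log_prod]
    · exact Finset.sum_congr rfl fun v _ => Real.log_pow _ _
    · intro v _
      have := hb2 v
      positivity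
  set N : ℕ → ℝ := fun t => Real.log |(U (ν t) kI : ℝ)| with hN
  have hNL : ∀ t, ε * L (ν t) ≤ N t := by
    intro t
    rw [hN, ← Real.log_exp (ε * L (ν t))]
    exact Real.log_le_log (Real.exp_pos _) (hg t).large
  have hN0 : ∀ t, 0 ≤ N t := fun t => Real.log_nonneg (hU1 _ _)
  have hNt : Tendsto N atTop atTop := by
    refine tendsto_atTop_mono hNL ?_
    exact (hL.comp hν).const_mul_atTop hε
  have hlUN : ∀ t i, Real.log |(U (ν t) i : ℝ)| ≤ N t := by
    intro t i
    exact Real.log_le_log (by have := hU1 (ν t) i; linarith) ((hg t).big i)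
  have hm1 : (0 : ℝ) < 2 * ((m : ℝ) + 1) := by positivity
  have hdiv : ∀ t, N t / (2 * ((m : ℝ) + 1)) ≤ N t := by
    intro t
    refine div_le_self (hN0 t) ?_
    have : (0 : ℝ) ≤ m := Nat.cast_nonneg m
    linarith
  have key := sst m s hm (Mk kI) (fun v => Mk (kv v)) b
    ⟨Mk_det _, fun v => Mk_det _, hb2, fun v v' hv => (Nat.coprime_primes (hb v) (hb v')).2
      fun h => hv (hbi h)⟩ 2 (1 / 2) (by norm_num) (by norm_num) N hNt
    (fun t v l => e (ν t) v ((kv v).succAbove l))
    (fun t l => Real.exp (N t / (2 * ((m : ℝ) + 1))) * |(U (ν t) (kI.succAbove l) : ℝ)|)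
    ?_ (fun t l => C l.succ (ν t) * U (ν t) l.succ) ?_ ?_
  · exact key
  · intro t
    have hlA : ∀ l, Real.log (Real.exp (N t / (2 * ((m : ℝ) + 1))) *
        |(U (ν t) (kI.succAbove l) : ℝ)|) = N t / (2 * ((m : ℝ) + 1)) +
          Real.log |(U (ν t) (kI.succAbove l) : ℝ)| := by
      intro l
      rw [Real.log_mul (Real.exp_pos _).ne' (by have := hU1 (ν t) (kI.succAbove l); linarith),
        Real.log_exp]
    refine ⟨?_, ?_, ?_, ?_⟩
    · intro v l
      have h1 : (e (ν t) v ((kv v).succAbove l) : ℝ) * Real.log (b v) ≤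
          Real.log |(U (ν t) ((kv v).succAbove l) : ℝ)| := by
        rw [hlU]
        exact Finset.single_le_sum (f := fun v' => (e (ν t) v' ((kv v).succAbove l) : ℝ) *
          Real.log (b v')) (fun v' _ => mul_nonneg (Nat.cast_nonneg _) (hlb v').le)
          (Finset.mem_univ v)
      have h2 := hlUN t ((kv v).succAbove l)
      have h3 := hN0 t
      linarith
    · intro l
      have := hU1 (ν t) (kI.succAbove l)
      positivity
    · intro l
      rw [hlA]
      have h1 := hlUN t (kI.succAbove l)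
      have h2 := Real.log_nonneg (hU1 (ν t) (kI.succAbove l))
      have h3 := hdiv t
      have h4 : 0 ≤ N t / (2 * ((m : ℝ) + 1)) := div_nonneg (hN0 t) hm1.le
      rw [abs_of_nonneg (by linarith)]
      linarith
    · simp only [hlA]
      rw [Finset.sum_add_distrib, Finset.sum_const, Finset.card_univ, Fintype.card_fin,
        nsmul_eq_mul]
      have h1 : ∑ l : Fin m, Real.log |(U (ν t) (kI.succAbove l) : ℝ)| =
          ∑ i, Real.log |(U (ν t) i : ℝ)| - N t := by
        rw [Fin.sum_univ_succAbove (fun i => Real.log |(U (ν t) i : ℝ)|) kI]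
        ring
      have h2 : ∀ v, ∑ l : Fin m, (e (ν t) v ((kv v).succAbove l) : ℝ) * Real.log (b v) =
          ∑ i, (e (ν t) v i : ℝ) * Real.log (b v) := by
        intro v
        rw [Fin.sum_univ_succAbove (fun i => (e (ν t) v i : ℝ) * Real.log (b v)) (kv v)]
        rw [(hg t).zero v]
        simp
      have h3 : ∑ v, ∑ l : Fin m, (e (ν t) v ((kv v).succAbove l) : ℝ) * Real.log (b v) =
          ∑ i, Real.log |(U (ν t) i : ℝ)| := by
        rw [Finset.sum_congr rfl fun v _ => h2 v, Finset.sum_comm]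
        exact Finset.sum_congr rfl fun i _ => (hlU _ _).symm
      rw [h1, h3]
      have h4 : (m : ℝ) * (N t / (2 * ((m : ℝ) + 1))) ≤ 1 / 2 * N t := by
        rw [← mul_div_assoc, div_le_iff₀ hm1]
        have := hN0 t
        nlinarith
      linarith
  · intro t h0
    have h1 := congrFun h0 ⟨0, hm⟩
    have h2 : U (ν t) (Fin.succ ⟨0, hm⟩) ≠ 0 := by
      intro h3
      have := hU1 (ν t) (Fin.succ ⟨0, hm⟩)
      rw [h3] at this
      norm_num at this
    exact mul_ne_zero ((hg t).ne _) h2 h1
  · intro t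
    have hext : ext (fun l : Fin m => C l.succ (ν t) * U (ν t) l.succ) =
        fun i => C i (ν t) * U (ν t) i := ext_of (fun i => C i (ν t) * U (ν t) i) (hg t).rel
    constructor
    · intro l
      rw [Mk_apply, hext]
      push_cast
      rw [abs_mul]
      refine mul_le_mul_of_nonneg_right ?_ (abs_nonneg _)
      refine ((hg t).small _).trans (Real.exp_le_exp.2 ?_)
      rw [div_mul_eq_mul_div]
      exact div_le_div_of_nonneg_right (hNL t) hm1.le
    · intro v l
      rw [Mk_apply, hext]
      exact Dvd.dvd.mul_left (hdv _ _ _) _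

/-- the induction step: a relation with all coefficients nonzero is impossible -/
lemma step {s m : ℕ} (hm : 1 ≤ m) (b : Fin s → ℕ) (hb : ∀ v, (b v).Prime)
    (hbi : Function.Injective b) (L : ℕ → ℝ) (hL : Tendsto L atTop atTop)
    (u : Fin (m + 1) → GG) (hu : ∀ i, GSU b (u i))
    (hne : ∀ i j, i ≠ j → u i / u j ∉ KK L hL) (c : Fin (m + 1) → KK L hL)
    (hc : ∀ i, c i ≠ 0) (hrel : ∑ i, (c i : GG) * u i = 0)
    (ih : ∀ c' : Fin m → KK L hL, ∑ i, (c' i : GG) * u (Fin.succ i) = 0 → ∀ i, c' i = 0) :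
    False := by
  classical
  have hb2 : ∀ v, 2 ≤ b v := fun v => (hb v).two_le
  choose a ha hSU using hu
  have hrel' : ∑ i, (c i : GG) * gm (a i) = 0 := by
    rw [← hrel]
    exact Finset.sum_congr rfl fun i _ => by rw [ha]
  obtain ⟨C, D, hCN, hD, hCD, hC0, hCa⟩ := clear hL c hc a hrel'
  choose g U e hg hU hUe hdv hz using fun n => normalise b hb2 (fun i => a i n) fun i => hSU i n
  have hU0 : ∀ n i, U n i ≠ 0 := by
    intro n i h2
    have h3 := hUe n i
    rw [h2, Int.cast_zero, abs_zero] at h3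
    have h4 : (0 : ℝ) < ∏ v, (b v : ℝ) ^ (e n v i) := Finset.prod_pos fun v _ => by
      have := hb2 v
      positivity
    linarith
  -- constant indices
  obtain ⟨kI, hkI⟩ : ∃ kI : Fin (m + 1), ∀ᶠ n in (UU : Filter ℕ),
      ∀ i, |(U n i : ℝ)| ≤ |(U n kI : ℝ)| :=
    const_of_ev (Eventually.of_forall fun n => Finite.exists_max fun i => |(U n i : ℝ)|)
  choose kv hkv using fun v : Fin s => const_of_ev (p := fun i n => e n v i = 0)
    (Eventually.of_forall fun n => hz n v)
  -- size
  have h01 : (0 : Fin (m + 1)) ≠ Fin.last m := by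
    intro h
    have := congrArg Fin.val h
    simp at this
    omega
  have hq : gm (fun n => (U n 0 : ℚ) / U n (Fin.last m)) ∉ KK L hL := by
    have h1 := hne 0 (Fin.last m) h01
    rw [ha, ha, gm_div] at h1
    have h4 : (fun n => (U n 0 : ℚ) / U n (Fin.last m)) =
        fun n => a 0 n / a (Fin.last m) n := by
      funext n
      rw [hU n 0, hU n (Fin.last m), mul_div_mul_left _ _ (hg n)]
    rw [h4]
    exact h1
  obtain ⟨ε, hε, hlarge⟩ := large hL _ _ (fun n => hU0 n (Fin.last m)) hq
  have hrelU : ∀ᶠ n in (UU : Filter ℕ), ∑ i, C i n * U n i = 0 := by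
    filter_upwards [hCa] with n hn
    have h1 : g n * ((∑ i, C i n * U n i : ℤ) : ℚ) = 0 := by
      rw [← hn]
      push_cast
      rw [Finset.mul_sum]
      refine Finset.sum_congr rfl fun i _ => ?_
      rw [hU n i]
      ring
    have h2 := (mul_eq_zero.1 h1).resolve_left (hg n)
    exact_mod_cast h2
  have hgood : ∀ᶠ n in (UU : Filter ℕ), Good b ε L C U e kI kv n := by
    have hsm : ∀ᶠ n in (UU : Filter ℕ), ∀ i, |(C i n : ℝ)| ≤
        Real.exp (ε / (2 * ((m : ℝ) + 1)) * L n) :=
      eventually_all.2 fun i => hCN i _ (by positivity)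
    filter_upwards [hkI, eventually_all.2 hkv, hlarge, hrelU, hC0, hsm] with n h1 h2 h3 h4 h5 h6
    exact ⟨h4, h5, h1, h2, h3.le.trans (max_le (h1 _) (h1 _)), h6⟩
  -- no fixed relation
  have hno : ∀ y : Fin m → ℤ, y ≠ 0 → ∀ᶠ n in (UU : Filter ℕ),
      ∑ l : Fin m, y l * (C l.succ n * U n l.succ) ≠ 0 := by
    intro y hy
    by_contra hcon
    have h1 : ∀ᶠ n in (UU : Filter ℕ), ∑ l : Fin m, y l * (C l.succ n * U n l.succ) = 0 := by
      have h2 := Ultrafilter.eventually_not.2 hcon
      filter_upwards [h2] with n hn using not_not.1 hn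
    apply hy
    have h3 : ∑ l : Fin m, ((((y l : ℤ) : KK L hL) * c l.succ : KK L hL) : GG) * u l.succ = 0 := by
      have h4 : gm D * ∑ l : Fin m, ((((y l : ℤ) : KK L hL) * c l.succ : KK L hL) : GG) *
          u l.succ = 0 := by
        have h5 : gm (fun n => ∑ l : Fin m, (y l : ℚ) * ((C l.succ n : ℚ) * a l.succ n)) = 0 := by
          rw [← gm_zero, gm_eq]
          filter_upwards [h1] with n hn
          calc ∑ l : Fin m, (y l : ℚ) * ((C l.succ n : ℚ) * a l.succ n) =
              g n * ((∑ l : Fin m, y l * (C l.succ n * U n l.succ) : ℤ) : ℚ) := by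
                push_cast
                rw [Finset.mul_sum]
                refine Finset.sum_congr rfl fun l _ => ?_
                rw [hU n l.succ]
                ring
            _ = 0 := by rw [hn]; simp
        rw [← h5, Finset.mul_sum]
        have h6 : ∀ A : Finset (Fin m), ∑ l ∈ A, gm D * (((((y l : ℤ) : KK L hL) * c l.succ :
            KK L hL) : GG) * u l.succ) =
            gm (fun n => ∑ l ∈ A, (y l : ℚ) * ((C l.succ n : ℚ) * a l.succ n)) := by
          intro A
          induction A using Finset.induction_on with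
          | empty => simp [gm_zero]
          | insert x A hx ih =>
            rw [Finset.sum_insert hx, ih]
            have h7 : gm D * (((((y x : ℤ) : KK L hL) * c x.succ : KK L hL) : GG) * u x.succ) =
                gm (fun n => (y x : ℚ) * ((C x.succ n : ℚ) * a x.succ n)) := by
              have h8 : (((y x : ℤ) : KK L hL) : GG) = gm (fun _ => (y x : ℚ)) := by
                rw [SubringClass.coe_intCast]
                rfl
              rw [ha, Subfield.coe_mul, h8, ← gm_mul, ← gm_mul, hCD]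
              ring
            rw [h7, gm_add]
            congr 1
            funext n
            rw [Finset.sum_insert hx]
        exact h6 _
      exact (mul_eq_zero.1 h4).resolve_left (gm_ne_zero.2 hD)
    have h4 := ih _ h3
    funext l
    have h5 := (mul_eq_zero.1 (h4 l)).resolve_right (hc _)
    exact_mod_cast h5
  -- the diagonal sequence
  obtain ⟨f, hf⟩ := exists_surjective_nat (Fin m → ℤ)
  have hex : ∀ t : ℕ, ∃ n, t ≤ n ∧ Good b ε L C U e kI kv n ∧ ∀ q ≤ t, f q ≠ 0 →
      ∑ l : Fin m, f q l * (C l.succ n * U n l.succ) ≠ 0 := by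
    intro t
    have h1 : ∀ᶠ n in (UU : Filter ℕ), ∀ q ∈ Finset.range (t + 1), f q ≠ 0 →
        ∑ l : Fin m, f q l * (C l.succ n * U n l.succ) ≠ 0 := by
      rw [Finset.eventually_all]
      intro q _
      by_cases h2 : f q = 0
      · exact Eventually.of_forall fun n h3 => absurd h2 h3
      · filter_upwards [hno _ h2] with n hn _ using hn
    have h2 : ∀ᶠ n in (UU : Filter ℕ), t ≤ n := ev_of_atTop (eventually_ge_atTop t)
    obtain ⟨n, h3, h4, h5⟩ := (h2.and (hgood.and h1)).exists
    exact ⟨n, h3, h4, fun q hq => h5 q (Finset.mem_range_succ_iff.2 hq)⟩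
  choose ν hν1 hν2 hν3 using hex
  obtain ⟨y, hy, hfr⟩ := apply_sst hm b hb hbi L hL ε hε C U e hUe hdv kI kv ν
    (tendsto_atTop_mono hν1 tendsto_id) hν2
  obtain ⟨q, rfl⟩ := hf y
  obtain ⟨t, h1, h2⟩ := (hfr.and_eventually (eventually_ge_atTop q)).exists
  exact hν3 t q h2 hy h1

/-- **Independence of S-unit germs over the field of negligible germs.** -/
theorem sui : SUIStmt := by
  intro s b hb hbi L hL m
  have hne0 : ∀ g : GG, GSU b g → g ≠ 0 := by
    rintro g ⟨a, rfl, ha⟩
    rw [gm_ne_zero]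
    refine Eventually.of_forall fun n => ?_
    obtain ⟨σ, e, hσ, hx⟩ := ha n
    rw [hx]
    refine mul_ne_zero ?_ (Finset.prod_ne_zero_iff.2 fun v _ => zpow_ne_zero _ ?_)
    · rcases hσ with h | h <;> simp [h]
    · exact_mod_cast (hb v).ne_zero
  induction m with
  | zero => intro u _ _ c _ i; exact i.elim0
  | succ m ih =>
    intro u hu hne c hrel
    by_cases hc : ∀ i, c i ≠ 0
    · exfalso
      rcases Nat.eq_zero_or_pos m with hm | hm
      · subst hm
        rw [Fin.sum_univ_one] at hrel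
        rcases mul_eq_zero.1 hrel with h | h
        · exact hc 0 (Subtype.ext h)
        · exact hne0 _ (hu 0) h
      · refine step hm b hb hbi L hL u hu hne c hc hrel fun c' hc' => ?_
        exact ih (fun i => u i.succ) (fun i => hu _)
          (fun i j hij => hne _ _ fun h => hij (Fin.succ_injective _ h)) c' hc'
    · push Not at hc
      obtain ⟨k, hk⟩ := hc
      rw [Fin.sum_univ_succAbove _ k, hk] at hrel
      have h1 := ih (fun i => u (k.succAbove i)) (fun i => hu _)
          (fun i j hij => hne _ _ fun h => hij (Fin.succAbove_right_injective h))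
          (fun i => c (k.succAbove i)) (by simpa using hrel)
      intro i
      by_cases hi : i = k
      · rw [hi, hk]
      · obtain ⟨l, rfl⟩ := Fin.exists_succAbove_eq hi
        exact h1 l

end Pool.Agent.TH551.SU.SUI
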