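import Mathlib
import Pool.Agent.TH551.SU.Stms

set_option autoImplicit false

namespace Pool.Agent.TH551.SU.CS

open Filter Topology Pool.Agent.TH932.Germs Pool.Agent.TH551.SU

/-- grouping a vanishing combination into classes modulo a subfield -/
lemma core {G : Type*} [Field G] (K : Subfield G) {ι : Type} (A : Finset ι) (a : ι → K) (g : ι → G)
    (w : ι → ℕ) (hg : ∀ i ∈ A, g i ≠ 0) (hw : ∀ i ∈ A, ∀ j ∈ A, g i / g j ∈ K → w i = w j)
    (hsum : ∑ i ∈ A, (a i : G) * g i = 0)
    (H : ∀ (m : ℕ) (f : Fin m → ↥A), (∀ i j, i ≠ j → g (f i) / g (f j) ∉ K) →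
      ∀ c : Fin m → K, ∑ i, (c i : G) * g (f i) = 0 → ∀ i, c i = 0) :
    ∑ i ∈ A, Polynomial.C ((a i : G) * g i) * Polynomial.X ^ (w i) = 0 := by
  classical
  let s : Setoid ↥A := ⟨fun i j => g i / g j ∈ K,
    ⟨fun i => by rw [div_self (hg i i.2)]; exact K.one_mem,
     fun {i j} h => by rw [← inv_div]; exact K.inv_mem h,
     fun {i j k} h1 h2 => by
      rw [← div_mul_div_cancel₀ (hg j j.2)]; exact K.mul_mem h1 h2⟩⟩
  have hs : ∀ i j : ↥A, (Quotient.mk s i = Quotient.mk s j) ↔ g i / g j ∈ K := fun i j => Quotient.eq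
  have hfin : Finite (Quotient s) := inferInstance
  have hft : Fintype (Quotient s) := Fintype.ofFinite _
  let e := Fintype.equivFin (Quotient s)
  have hrp : ∀ i : ↥A, g i / g (Quotient.mk s i).out ∈ K := by
    intro i
    rw [← hs, Quotient.out_eq]
  set c : Quotient s → K := fun q => ∑ i : ↥A with Quotient.mk s i = q,
    a i * ⟨g i / g (Quotient.mk s i).out, hrp i⟩ with hc
  have hcq : ∀ q : Quotient s, (c q : G) * g q.out = ∑ i : ↥A with Quotient.mk s i = q, (a i : G) * g i := by
    intro q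
    rw [hc]
    simp only
    rw [AddSubmonoidClass.coe_finsetSum, Finset.sum_mul]
    refine Finset.sum_congr rfl fun i hi => ?_
    rw [Finset.mem_filter] at hi
    obtain ⟨-, rfl⟩ := hi
    rw [MulMemClass.coe_mul, mul_assoc]
    congr 1
    exact div_mul_cancel₀ _ (hg _ (Quotient.mk s i).out.2)
  have h0 : ∀ q, c q = 0 := by
    intro q
    have h1 := H (Fintype.card (Quotient s)) (fun k => (e.symm k).out) (fun i j hij h => by
      apply hij
      rw [← hs, Quotient.out_eq, Quotient.out_eq] at h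
      exact e.symm.injective h) (fun k => c (e.symm k)) (by
      rw [Equiv.sum_comp e.symm (fun q => (c q : G) * g q.out)]
      simp_rw [hcq]
      rw [Finset.sum_fiberwise]
      rw [Finset.sum_coe_sort A (fun i => (a i : G) * g i)]
      exact hsum) (e q)
    simpa using h1
  rw [← Finset.sum_coe_sort, ← Finset.sum_fiberwise (s := Finset.univ) (g := Quotient.mk s)]
  refine Finset.sum_eq_zero fun q _ => ?_
  have h2 : ∀ i ∈ (Finset.univ : Finset ↥A).filter (fun i => Quotient.mk s i = q),
      Polynomial.C ((a i : G) * g i) * Polynomial.X ^ (w i) =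
      Polynomial.C ((a i : G) * g i) * Polynomial.X ^ (w q.out) := by
    intro i hi
    rw [Finset.mem_filter] at hi
    obtain ⟨-, rfl⟩ := hi
    rw [hw i i.2 _ (Quotient.mk s i).out.2 (hrp i)]
  rw [Finset.sum_congr rfl h2, ← Finset.sum_mul, ← map_sum, ← hcq, h0]
  simp

theorem cs (h : SUIStmt) : CSStmt := by
  intro s b hb hbi L hL ι A a g w hg hw hsum
  refine core (KK L hL) A a g w ?_ hw hsum ?_
  · intro i hi
    obtain ⟨x, hx, hx2⟩ := hg i hi
    rw [hx, gm_ne_zero]
    refine Eventually.of_forall fun n => ?_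
    obtain ⟨σ, e, hσ, he⟩ := hx2 n
    rw [he]
    refine mul_ne_zero ?_ (Finset.prod_ne_zero_iff.mpr fun v _ => zpow_ne_zero _ ?_)
    · rcases hσ with rfl | rfl <;> norm_num
    · exact_mod_cast (hb v).ne_zero
  · intro m f hf c hc
    exact h s b hb hbi L hL m (fun i => g (f i)) (fun i => hg _ (f i).2) hf c hc

end Pool.Agent.TH551.SU.CS
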