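import Mathlib
import Pool.Agent.TH551.SU.Stms

/-!
# Project SU: heights of rational points, finitely generated groups of rational numbers
-/

set_option autoImplicit false

namespace Pool.Agent.TH551.SU.Ht

open Filter Topology Pool.Agent.TH932.Germs Pool.Agent.TH551.SU Height

/-- the height of an integral vector is at most the logarithm of its size -/
lemma logHeight_int_le {ι : Type} [Fintype ι] [Nonempty ι] (w : ι → ℤ) (B : ℝ) (hB : 1 ≤ B)
    (h : ∀ i, |(w i : ℝ)| ≤ B) : logHeight (fun i => (w i : ℚ)) ≤ Real.log B := by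
  by_cases h0 : w = 0
  · subst h0
    have h1 : (fun i => (((0 : ι → ℤ) i : ℤ) : ℚ)) = (0 : ι → ℚ) := by
      funext i
      simp
    rw [h1, logHeight_zero]
    exact Real.log_nonneg hB
  · obtain ⟨w', hw', hg⟩ := Finset.extract_gcd (s := (Finset.univ : Finset ι)) w
      Finset.univ_nonempty
    have hg0 : Finset.univ.gcd w ≠ 0 := by
      intro h1
      apply h0
      funext i
      exact Finset.gcd_eq_zero_iff.1 h1 i (Finset.mem_univ i)
    have h2 : (fun i => (w i : ℚ)) = ((Finset.univ.gcd w : ℤ) : ℚ) • (((↑) : ℤ → ℚ) ∘ w') := by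
      funext i
      rw [Pi.smul_apply, Function.comp_apply, smul_eq_mul, ← Int.cast_mul, ← hw' i (Finset.mem_univ i)]
    rw [h2, logHeight_smul_eq_logHeight _ (by exact_mod_cast hg0),
      Rat.logHeight_eq_max_abs_of_gcd_eq_one hg]
    have h3 : ∃ i, ⨆ i, |w' i| = |w' i| := by
      obtain ⟨i, hi⟩ := exists_eq_ciSup_of_finite (f := fun i => |w' i|)
      exact ⟨i, hi.symm⟩
    obtain ⟨i, hi⟩ := h3
    rw [hi]
    have h4 : (|w' i| : ℤ) ≤ |w i| := by
      rw [hw' i (Finset.mem_univ i), abs_mul]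
      have h5 : 1 ≤ |Finset.univ.gcd w| := Int.one_le_abs hg0
      nlinarith [abs_nonneg (w' i)]
    have h6 : ((|w' i| : ℤ) : ℝ) ≤ B := by
      refine le_trans ?_ (h i)
      exact_mod_cast h4
    rcases (abs_nonneg (w' i)).eq_or_lt with h7 | h7
    · rw [← h7]
      simpa using Real.log_nonneg hB
    · exact Real.log_le_log (by exact_mod_cast h7) h6

/-- every nonzero rational vector is a multiple of a primitive integral vector -/
lemma exists_primitive {ι : Type} [Fintype ι] [Nonempty ι] (v : ι → ℚ) (hv : v ≠ 0) :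
    ∃ (c : ℚ) (w : ι → ℤ), c ≠ 0 ∧ (∀ i, v i = c * w i) ∧
      ∀ i, |(w i : ℝ)| ≤ Real.exp (logHeight v) := by
  classical
  set D : ℤ := ∏ i, ((v i).den : ℤ) with hD
  have hD0 : D ≠ 0 := Finset.prod_ne_zero_iff.2 fun i _ => by exact_mod_cast (v i).den_ne_zero
  have h1 : ∀ i, ∃ k : ℤ, (D : ℚ) * v i = k := by
    intro i
    refine ⟨(∏ j ∈ Finset.univ.erase i, ((v j).den : ℤ)) * (v i).num, ?_⟩
    have h2 : (v i : ℚ) * (v i).den = (v i).num := Rat.mul_den_eq_num (v i)
    rw [hD, ← Finset.mul_prod_erase _ _ (Finset.mem_univ i)]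
    push_cast
    rw [← h2]
    ring
  choose k hk using h1
  have hk0 : k ≠ 0 := by
    intro h2
    apply hv
    funext i
    have h3 := hk i
    rw [h2] at h3
    simp only [Pi.zero_apply, Int.cast_zero] at h3
    exact (mul_eq_zero.1 h3).resolve_left (by exact_mod_cast hD0)
  obtain ⟨w, hw, hg⟩ := Finset.extract_gcd (s := (Finset.univ : Finset ι)) k
    Finset.univ_nonempty
  have hg0 : Finset.univ.gcd k ≠ 0 := by
    intro h1
    apply hk0
    funext i
    exact Finset.gcd_eq_zero_iff.1 h1 i (Finset.mem_univ i)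
  have hg0' : ((Finset.univ.gcd k : ℤ) : ℚ) ≠ 0 := by exact_mod_cast hg0
  have hD0' : (D : ℚ) ≠ 0 := by exact_mod_cast hD0
  have hc : ((Finset.univ.gcd k : ℤ) : ℚ) / D ≠ 0 := div_ne_zero hg0' hD0'
  have hvw : ∀ i, v i = ((Finset.univ.gcd k : ℤ) : ℚ) / D * w i := by
    intro i
    have h2 := hk i
    rw [hw i (Finset.mem_univ i)] at h2
    push_cast at h2
    field_simp
    linarith
  refine ⟨_, w, hc, hvw, ?_⟩
  intro i
  have h2 : v = (((Finset.univ.gcd k : ℤ) : ℚ) / D) • (((↑) : ℤ → ℚ) ∘ w) := by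
    funext i
    rw [Pi.smul_apply, Function.comp_apply, smul_eq_mul]
    exact hvw i
  rw [h2, logHeight_smul_eq_logHeight _ hc, Rat.logHeight_eq_max_abs_of_gcd_eq_one hg]
  have h3 : |w i| ≤ ⨆ i, |w i| := Finite.le_ciSup (fun i => |w i|) i
  have h4 : (1 : ℤ) ≤ ⨆ i, |w i| := by
    by_contra h5
    push Not at h5
    have h6 : ∀ i, w i = 0 := by
      intro i
      have h7 := Finite.le_ciSup (fun i => |w i|) i
      have h8 : |w i| < 1 := lt_of_le_of_lt h7 h5
      exact Int.abs_lt_one_iff.1 h8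
    have h9 : Finset.univ.gcd w = 0 := Finset.gcd_eq_zero_iff.2 fun i _ => h6 i
    rw [h9] at hg
    exact zero_ne_one hg
  rw [Real.exp_log (by exact_mod_cast lt_of_lt_of_le one_pos h4)]
  exact_mod_cast h3

lemma IsSU.one {s : ℕ} (b : Fin s → ℕ) : IsSU b 1 := ⟨1, 0, Or.inl rfl, by simp⟩

lemma IsSU.neg {s : ℕ} {b : Fin s → ℕ} {x : ℚ} (h : IsSU b x) : IsSU b (-x) := by
  obtain ⟨σ, e, hσ, rfl⟩ := h
  refine ⟨-σ, e, ?_, ?_⟩
  · rcases hσ with h | h <;> simp [h]
  · push_cast
    ring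

lemma IsSU.mul {s : ℕ} {b : Fin s → ℕ} (hb : ∀ v, b v ≠ 0) {x y : ℚ} (hx : IsSU b x)
    (hy : IsSU b y) : IsSU b (x * y) := by
  obtain ⟨σ, e, hσ, rfl⟩ := hx
  obtain ⟨σ', e', hσ', rfl⟩ := hy
  refine ⟨σ * σ', fun v => e v + e' v, ?_, ?_⟩
  · rcases hσ with h | h <;> rcases hσ' with h' | h' <;> simp [h, h']
  · push_cast
    rw [mul_mul_mul_comm, ← Finset.prod_mul_distrib]
    congr 1
    refine Finset.prod_congr rfl fun v _ => ?_
    rw [zpow_add₀ (by exact_mod_cast hb v)]

lemma IsSU.inv {s : ℕ} {b : Fin s → ℕ} {x : ℚ} (hx : IsSU b x) : IsSU b x⁻¹ := by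
  obtain ⟨σ, e, hσ, rfl⟩ := hx
  refine ⟨σ, fun v => - e v, hσ, ?_⟩
  rw [mul_inv, ← Finset.prod_inv_distrib]
  congr 1
  · rcases hσ with h | h <;> simp [h]
  · exact Finset.prod_congr rfl fun v _ => (zpow_neg _ _).symm

lemma IsSU.base {s : ℕ} (b : Fin s → ℕ) (v : Fin s) : IsSU b (b v) := by
  refine ⟨1, Pi.single v 1, Or.inl rfl, ?_⟩
  rw [Int.cast_one, one_mul, Finset.prod_eq_single v]
  · simp
  · intro w _ hw
    rw [Pi.single_eq_of_ne hw, zpow_zero]
  · intro h
    exact absurd (Finset.mem_univ _) h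

lemma IsSU.nat {s : ℕ} {b : Fin s → ℕ} (hb : ∀ v, b v ≠ 0) (N : ℕ) (hN : N ≠ 0)
    (h : ∀ p : ℕ, p.Prime → p ∣ N → ∃ v, b v = p) : IsSU b N := by
  induction N using induction_on_primes with
  | zero => exact absurd rfl hN
  | one => simpa using IsSU.one b
  | prime_mul p a hp ih =>
    have ha : a ≠ 0 := fun h0 => hN (by rw [h0, mul_zero])
    obtain ⟨v, hv⟩ := h p hp (dvd_mul_right p a)
    have h1 := ih ha fun q hq hqa => h q hq (hqa.trans (dvd_mul_left a p))
    have h2 := IsSU.mul hb (IsSU.base b v) h1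
    rw [hv] at h2
    push_cast
    exact h2

/-- a finitely generated group of rational numbers consists of units at almost all primes -/
theorem exists_base (Γ : Subgroup ℚˣ) (hΓ : Γ.FG) :
    ∃ (s : ℕ) (b : Fin s → ℕ), (∀ v, (b v).Prime) ∧ Function.Injective b ∧
      ∀ g ∈ Γ, IsSU b ((g : ℚˣ) : ℚ) := by
  classical
  obtain ⟨T, hT⟩ := hΓ
  set P : Finset ℕ := T.biUnion fun g => ((g : ℚ).num.natAbs.primeFactors ∪
    (g : ℚ).den.primeFactors) with hP
  have hPp : ∀ p ∈ P, p.Prime := by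
    intro p hp
    rw [hP, Finset.mem_biUnion] at hp
    obtain ⟨g, _, hg⟩ := hp
    rw [Finset.mem_union] at hg
    rcases hg with hg | hg <;> exact Nat.prime_of_mem_primeFactors hg
  set b : Fin P.card → ℕ := fun v => (P.equivFin.symm v : ℕ) with hb
  have hbp : ∀ v, (b v).Prime := fun v => hPp _ (P.equivFin.symm v).2
  have hbP : ∀ p ∈ P, ∃ v, b v = p := fun p hp => ⟨P.equivFin ⟨p, hp⟩, by simp [hb]⟩
  have hb0 : ∀ v, b v ≠ 0 := fun v => (hbp v).ne_zero
  refine ⟨P.card, b, hbp, ?_, ?_⟩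
  · intro v w h
    exact P.equivFin.symm.injective (Subtype.ext h)
  · intro g hg
    rw [← hT] at hg
    induction hg using Subgroup.closure_induction with
    | mem x hx =>
      have hxT : x ∈ T := hx
      have h1 : IsSU b (((x : ℚ).num.natAbs : ℕ) : ℚ) := by
        refine IsSU.nat hb0 _ ?_ ?_
        · rw [Int.natAbs_ne_zero, Ne, Rat.num_eq_zero]
          exact x.ne_zero
        · intro p hp hpd
          refine hbP p (Finset.mem_biUnion.2 ⟨x, hxT, Finset.mem_union_left _ ?_⟩)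
          rw [Nat.mem_primeFactors]
          refine ⟨hp, hpd, ?_⟩
          rw [Int.natAbs_ne_zero, Ne, Rat.num_eq_zero]
          exact x.ne_zero
      have h2 : IsSU b (((x : ℚ).den : ℕ) : ℚ) := by
        refine IsSU.nat hb0 _ (x : ℚ).den_ne_zero ?_
        intro p hp hpd
        refine hbP p (Finset.mem_biUnion.2 ⟨x, hxT, Finset.mem_union_right _ ?_⟩)
        rw [Nat.mem_primeFactors]
        exact ⟨hp, hpd, (x : ℚ).den_ne_zero⟩
      have h3 : IsSU b ((x : ℚ).num : ℚ) := by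
        rcases Int.natAbs_eq (x : ℚ).num with h4 | h4
        · have h5 : ((x : ℚ).num : ℚ) = (((x : ℚ).num.natAbs : ℕ) : ℚ) := by
            conv_lhs => rw [h4]
            rw [Int.cast_natCast]
          rw [h5]
          exact h1
        · have h5 : ((x : ℚ).num : ℚ) = -(((x : ℚ).num.natAbs : ℕ) : ℚ) := by
            conv_lhs => rw [h4]
            rw [Int.cast_neg, Int.cast_natCast]
          rw [h5]
          exact IsSU.neg h1
      have h4 := IsSU.mul hb0 h3 (IsSU.inv h2)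
      rw [← div_eq_mul_inv, Rat.num_div_den] at h4
      exact h4
    | one => simpa using IsSU.one b
    | mul x y _ _ hx hy =>
      rw [Units.val_mul]
      exact IsSU.mul hb0 hx hy
    | inv x _ hx =>
      rw [Units.val_inv_eq_inv_val]
      exact IsSU.inv hx

end Pool.Agent.TH551.SU.Ht
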