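import Mathlib
import Pool.Agent.TH551.SU.Ht
import Pool.Agent.TH551.SU.Norm
import Pool.Agent.H533R3.SL.Asm

/-!
# Project SU: short sums of S-units on varieties that are not uniruled
-/

set_option autoImplicit false

namespace Pool.Agent.TH551.SU.Main

open Filter Topology Pool.Agent.TH932.Germs Pool.Agent.TH551.SU Pool.Agent.TH551.SU.Ht Height
open Pool.Agent.H533R3.SL

/-- constants -/
lemma algebraMap_eq (q : ℚ) : algebraMap ℚ GG q = gm (fun _ => q) := by
  have h : (algebraMap ℚ GG) = (Germ.coeRingHom (UU : Filter ℕ)).comp (Pi.constRingHom ℕ ℚ) :=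
    Subsingleton.elim _ _
  rw [h]
  rfl

/-- evaluation of polynomials at germs -/
lemma aeval_gm {n : ℕ} (X : Fin (n + 1) → ℕ → ℚ) (F : MvPolynomial (Fin (n + 1)) ℚ) :
    MvPolynomial.aeval (fun i => gm (X i)) F =
      gm (fun t => MvPolynomial.aeval (fun i => X i t) F) := by
  induction F using MvPolynomial.induction_on with
  | C a =>
    rw [MvPolynomial.aeval_C, algebraMap_eq]
    congr 1
    funext t
    rw [MvPolynomial.aeval_C]
    rfl
  | add p q hp hq =>
    rw [map_add, hp, hq, gm_add]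
    congr 1
    funext t
    rw [map_add]
  | mul_X p i hp =>
    rw [map_mul, hp, MvPolynomial.aeval_X, gm_mul]
    congr 1
    funext t
    rw [map_mul, MvPolynomial.aeval_X]

/-- homogeneous polynomials and scaling -/
lemma aeval_smul {n : ℕ} (F : MvPolynomial (Fin (n + 1)) ℚ) (e : ℕ) (hF : F.IsHomogeneous e)
    (c : ℚ) (x : Fin (n + 1) → ℚ) :
    MvPolynomial.aeval (fun i => c * x i) F = c ^ e * MvPolynomial.aeval x F := by
  rw [MvPolynomial.aeval_def, MvPolynomial.eval₂_eq', MvPolynomial.aeval_def,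
    MvPolynomial.eval₂_eq', Finset.mul_sum]
  refine Finset.sum_congr rfl fun α hα => ?_
  have h2 := hF (MvPolynomial.mem_support_iff.1 hα)
  rw [Finsupp.weight_apply, Finsupp.sum_fintype _ _ (by simp)] at h2
  have h3 : ∑ j, α j = e := by simpa using h2
  rw [← h3, ← Finset.prod_pow_eq_pow_sum]
  simp only [mul_pow]
  rw [Finset.prod_mul_distrib]
  ring

/-- a germ of vectors proportional to a negligible vector has negligible height -/
lemma height_small {n : ℕ} {L : ℕ → ℝ} (hL : Tendsto L atTop atTop) (X : ℕ → Fin (n + 1) → ℚ)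
    (μ : GG) (z : Fin (n + 1) → KK L hL) (hμ : μ ≠ 0)
    (h : ∀ i, gm (fun t => X t i) = μ * (z i : GG)) (ε : ℝ) (hε : 0 < ε) :
    ∀ᶠ t in (UU : Filter ℕ), logHeight (X t) ≤ ε * L t := by
  classical
  obtain ⟨μ, rfl⟩ := gm_surj μ
  have h0 : ∀ i, ∃ m d : ℕ → ℤ, Negl L m ∧ Negl L d ∧ (∀ᶠ n in (UU : Filter ℕ), d n ≠ 0) ∧
    (z i : GG) = gm fun n => (m n : ℚ) / d n := fun i => (z i).2
  choose M d hM hd hd0 hg using h0
  have hd1 : ∀ᶠ n in (UU : Filter ℕ), ∀ i, d i n ≠ 0 := eventually_all.2 hd0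
  have hX : ∀ᶠ t in (UU : Filter ℕ), ∀ i, X t i = μ t * ((M i t : ℚ) / d i t) := by
    refine eventually_all.2 fun i => ?_
    have h1 := h i
    rw [hg, gm_mul, gm_eq] at h1
    exact h1
  have hN : ∀ i, Negl L (fun n => M i n * ∏ j ∈ Finset.univ.erase i, d j n) := fun i =>
    (hM i).mul (SUI.Negl.prod hL _ fun j _ => hd j)
  have hN' : ∀ᶠ t in (UU : Filter ℕ), ∀ i,
      |((M i t * ∏ j ∈ Finset.univ.erase i, d j t : ℤ) : ℝ)| ≤ Real.exp (ε * L t) :=
    eventually_all.2 fun i => hN i ε hε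
  filter_upwards [hd1, hX, hN', gm_ne_zero.1 hμ, L_nonneg hL] with t h1 h2 h3 h4 h5
  have hD : (∏ j, (d j t : ℚ)) ≠ 0 := Finset.prod_ne_zero_iff.2 fun j _ => by exact_mod_cast h1 j
  have h6 : X t = (μ t / ∏ j, (d j t : ℚ)) •
      (fun i => ((M i t * ∏ j ∈ Finset.univ.erase i, d j t : ℤ) : ℚ)) := by
    funext i
    rw [Pi.smul_apply, smul_eq_mul, h2 i]
    have h7 : (d i t : ℚ) ≠ 0 := by exact_mod_cast h1 i
    have h8 : (∏ j ∈ Finset.univ.erase i, (d j t : ℚ)) ≠ 0 :=
      Finset.prod_ne_zero_iff.2 fun j _ => by exact_mod_cast h1 j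
    rw [← Finset.mul_prod_erase _ _ (Finset.mem_univ i)]
    push_cast
    field_simp
  rw [h6, logHeight_smul_eq_logHeight _ (div_ne_zero h4 hD)]
  refine (logHeight_int_le _ (Real.exp (ε * L t)) (Real.one_le_exp (by positivity)) h3).trans ?_
  rw [Real.log_exp]

/-- **Points that are short sums of S-units, on a variety that is not uniruled.** -/
theorem main (hcrv : CRVStmt) (n : ℕ) (FF : Finset (MvPolynomial (Fin (n + 1)) ℚ))
    (hhom : ∀ F ∈ FF, ∃ e, F.IsHomogeneous e)
    (hprime : (Ideal.span (FF : Set (MvPolynomial (Fin (n + 1)) ℚ))).IsPrime)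
    (hnu : ¬ Uniruled (Ideal.span (FF : Set (MvPolynomial (Fin (n + 1)) ℚ)))) (r : ℕ) :
    ∃ G : MvPolynomial (Fin (n + 1)) ℚ, (∃ e, G.IsHomogeneous e) ∧
      G ∉ Ideal.span (FF : Set (MvPolynomial (Fin (n + 1)) ℚ)) ∧
      ∀ Γ : Subgroup ℚˣ, Γ.FG → ∃ C : ℝ, ∀ (u : Fin r → Γ) (v : Fin r → Fin (n + 1) → ℚ),
        (∀ F ∈ FF, MvPolynomial.aeval (fun i => ∑ j, ((u j : ℚˣ) : ℚ) * v j i) F = 0) →
        MvPolynomial.aeval (fun i => ∑ j, ((u j : ℚˣ) : ℚ) * v j i) G ≠ 0 →
        logHeight (fun i => ∑ j, ((u j : ℚˣ) : ℚ) * v j i) ≤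
          C * (1 + logHeight (fun q : Fin r × Fin (n + 1) => v q.1 q.2)) := by
  classical
  obtain ⟨D, hD⟩ : ∃ D : ℕ, ∀ F ∈ FF, ∃ e, e ≤ D ∧ F.IsHomogeneous e := by
    choose! e he using hhom
    exact ⟨FF.sup e, fun F hF => ⟨e F, Finset.le_sup (f := e) hF, he F hF⟩⟩
  obtain ⟨G, ⟨eG, hGh⟩, hGI, hG⟩ := exists_hyper (FF : Set (MvPolynomial (Fin (n + 1)) ℚ)) hprime
    hnu (D + 1) (by omega) (fun F hF => by
      obtain ⟨e, he, hF'⟩ := hD F hF
      exact ⟨e, by omega, hF'⟩) r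
  refine ⟨G, ⟨eG, hGh⟩, hGI, ?_⟩
  intro Γ hΓ
  obtain ⟨s, b, hb, hbi, hΓb⟩ := exists_base Γ hΓ
  by_contra hcon
  push Not at hcon
  choose u v hF hGx hht using fun t : ℕ => hcon (t : ℝ)
  set x : ℕ → Fin (n + 1) → ℚ := fun t i => ∑ j, ((u t j : ℚˣ) : ℚ) * v t j i with hx
  set vv : ℕ → Fin r × Fin (n + 1) → ℚ := fun t q => v t q.1 q.2 with hvv
  have hxh : ∀ t, 0 < logHeight (x t) := by
    intro t
    have h1 := logHeight_nonneg (vv t)
    have h2 : (0 : ℝ) ≤ (t : ℝ) * (1 + logHeight (vv t)) := by positivity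
    exact lt_of_le_of_lt h2 (hht t)
  have hx0 : ∀ t, x t ≠ 0 := by
    intro t h0
    have h1 := hxh t
    rw [h0, logHeight_zero] at h1
    exact lt_irrefl _ h1
  have hv0 : ∀ t, vv t ≠ 0 := by
    intro t h0
    apply hx0 t
    funext i
    refine Finset.sum_eq_zero fun j _ => ?_
    have h1 : v t j i = 0 := congrFun h0 (j, i)
    rw [h1, mul_zero]
  have hr : Nonempty (Fin r) := by
    by_contra h
    rw [not_nonempty_iff] at h
    apply hx0 0
    funext i
    exact Finset.sum_eq_zero fun j _ => (h.false j).elim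
  choose c w hc hvw hw using fun t => exists_primitive (vv t) (hv0 t)
  set y : ℕ → Fin (n + 1) → ℚ := fun t i => ∑ j, ((u t j : ℚˣ) : ℚ) * (w t (j, i) : ℚ) with hy
  have hxy : ∀ t, x t = c t • y t := by
    intro t
    funext i
    rw [Pi.smul_apply, smul_eq_mul, hx, hy]
    simp only
    rw [Finset.mul_sum]
    refine Finset.sum_congr rfl fun j _ => ?_
    have h1 : v t j i = c t * w t (j, i) := hvw t (j, i)
    rw [h1]
    ring
  have hxy' : ∀ t, x t = fun i => c t * y t i := hxy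
  set L : ℕ → ℝ := fun t => logHeight (y t) with hLdef
  have hLx : ∀ t, logHeight (x t) = L t := by
    intro t
    rw [hxy t, logHeight_smul_eq_logHeight _ (hc t)]
  have hLt : ∀ t : ℕ, (t : ℝ) * (1 + logHeight (vv t)) < L t := by
    intro t
    rw [← hLx]
    exact hht t
  have hL : Tendsto L atTop atTop := by
    refine tendsto_atTop_mono (fun t => ?_) tendsto_natCast_atTop_atTop
    have h1 := logHeight_nonneg (vv t)
    have h2 : (0 : ℝ) ≤ (t : ℝ) * logHeight (vv t) := by positivity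
    have h3 := hLt t
    rw [mul_add, mul_one] at h3
    linarith
  have hwN : ∀ q, Negl L (fun t => w t q) := by
    intro q ε hε
    have h1 : ∀ᶠ t : ℕ in atTop, 1 / ε ≤ (t : ℝ) :=
      tendsto_natCast_atTop_atTop.eventually_ge_atTop _
    refine ev_of_atTop (h1.mono fun t ht => ?_)
    refine (hw t q).trans (Real.exp_le_exp.2 ?_)
    have h2 := logHeight_nonneg (vv t)
    have h3 := hLt t
    have h4 : 1 / ε * logHeight (vv t) ≤ (t : ℝ) * (1 + logHeight (vv t)) := by
      have h5 : (0 : ℝ) ≤ t := Nat.cast_nonneg t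
      nlinarith [mul_le_mul_of_nonneg_right ht h2]
    have h5 : 1 / ε * logHeight (vv t) ≤ L t := h4.trans h3.le
    rw [one_div, inv_mul_le_iff₀ hε] at h5
    exact h5
  -- the germs
  set U : Fin r → GG := fun j => gm (fun t => ((u t j : ℚˣ) : ℚ)) with hU
  have hUS : ∀ j, GSU b (U j) := fun j => ⟨_, rfl, fun t => hΓb _ (u t j).2⟩
  have hwK : ∀ q, gm (fun t => (w t q : ℚ)) ∈ KK L hL := fun q =>
    ⟨_, _, hwN q, Negl.one hL, by simp, by
      congr 1
      funext t
      simp⟩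
  set V : Fin r → Fin (n + 1) → KK L hL := fun j i => ⟨_, hwK (j, i)⟩ with hV
  have hsum : ∀ i, ∑ j, U j * (V j i : GG) = gm (fun t => y t i) := by
    intro i
    have h1 : ∀ A : Finset (Fin r), ∑ j ∈ A, U j * (V j i : GG) =
        gm (fun t => ∑ j ∈ A, ((u t j : ℚˣ) : ℚ) * (w t (j, i) : ℚ)) := by
      intro A
      induction A using Finset.induction_on with
      | empty => simp [gm_zero]
      | insert a A ha ih =>
        rw [Finset.sum_insert ha, ih]
        show gm _ * gm _ + gm _ = _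
        rw [gm_mul, gm_add]
        congr 1
        funext t
        rw [Finset.sum_insert ha]
    exact h1 _
  have hFy : ∀ F ∈ FF, ∀ t, MvPolynomial.aeval (y t) F = 0 := by
    intro F hFF t
    obtain ⟨e, he⟩ := hhom F hFF
    have h1 := hF t F hFF
    have h2 : MvPolynomial.aeval (x t) F = 0 := h1
    rw [hxy' t, aeval_smul F e he] at h2
    exact (mul_eq_zero.1 h2).resolve_left (pow_ne_zero _ (hc t))
  have hGy : ∀ t, MvPolynomial.aeval (y t) G ≠ 0 := by
    intro t h0
    have h1 : MvPolynomial.aeval (x t) G ≠ 0 := hGx t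
    rw [hxy' t, aeval_smul G eG hGh, h0, mul_zero] at h1
    exact h1 rfl
  obtain ⟨l, hcur, halt⟩ := hcrv s b hb hbi L hL n r (FF : Set _) hhom U hUS V
    (fun F hFF => by
      simp only [hsum]
      rw [aeval_gm, ← gm_zero]
      congr 1
      funext t
      exact hFy F hFF t)
    (by
      by_contra h0
      push Not at h0
      have h1 : ∀ᶠ t in (UU : Filter ℕ), ∀ i, y t i = 0 := by
        refine eventually_all.2 fun i => ?_
        have h2 := h0 i
        rw [hsum, ← gm_zero, gm_eq] at h2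
        exact h2
      obtain ⟨t, ht⟩ := h1.exists
      apply hx0 t
      rw [hxy t]
      funext i
      rw [Pi.smul_apply, ht i, smul_zero, Pi.zero_apply])
  rcases halt with halt | ⟨μ, z, hμ, hz⟩
  · have h1 := hG GG (fun j i => U j * (V j i : GG)) l hcur halt
    simp only [hsum] at h1
    rw [aeval_gm, ← gm_zero, gm_eq] at h1
    obtain ⟨t, ht⟩ := h1.exists
    exact hGy t ht
  · have h1 := height_small hL y μ z hμ (fun i => by rw [← hsum, hz]) (1 / 2) (by norm_num)
    have h2 : ∀ᶠ t in (UU : Filter ℕ), 1 ≤ L t := ev_of_atTop (hL.eventually_ge_atTop 1)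
    obtain ⟨t, h3, h4⟩ := (h1.and h2).exists
    have h5 : L t ≤ 1 / 2 * L t := h3
    linarith

end Pool.Agent.TH551.SU.Main
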