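import Mathlib
import Pool.Agent.TH551.SU.Stms

set_option autoImplicit false

namespace Pool.Agent.TH551.SU.CRV

open Filter Topology Pool.Agent.TH932.Germs Pool.Agent.TH551.SU Pool.Agent.H533R3.SL

/-! ### germs of S-units -/

section units

variable {s : ℕ} {b : Fin s → ℕ}

lemma IsSU.one : IsSU b 1 := ⟨1, fun _ => 0, Or.inl rfl, by simp⟩

lemma IsSU.mul (hb : ∀ v, (b v).Prime) {x y : ℚ} (hx : IsSU b x) (hy : IsSU b y) :
    IsSU b (x * y) := by
  obtain ⟨σ, e, hσ, rfl⟩ := hx
  obtain ⟨σ', e', hσ', rfl⟩ := hy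
  refine ⟨σ * σ', fun v => e v + e' v, ?_, ?_⟩
  · rcases hσ with rfl | rfl <;> rcases hσ' with rfl | rfl <;> simp
  · have h1 : ∏ v, (b v : ℚ) ^ (e v + e' v) = (∏ v, (b v : ℚ) ^ (e v)) * ∏ v, (b v : ℚ) ^ (e' v) := by
      rw [← Finset.prod_mul_distrib]
      refine Finset.prod_congr rfl fun v _ => ?_
      rw [zpow_add₀]
      exact_mod_cast (hb v).ne_zero
    rw [h1]
    push_cast
    ring

lemma IsSU.ne_zero (hb : ∀ v, (b v).Prime) {x : ℚ} (hx : IsSU b x) : x ≠ 0 := by
  obtain ⟨σ, e, hσ, rfl⟩ := hx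
  refine mul_ne_zero ?_ (Finset.prod_ne_zero_iff.2 fun v _ => zpow_ne_zero _ ?_)
  · rcases hσ with rfl | rfl <;> simp
  · exact_mod_cast (hb v).ne_zero

lemma GSU.one : GSU b (1 : GG) := ⟨fun _ => 1, by rw [gm_one], fun _ => IsSU.one⟩

lemma GSU.mul (hb : ∀ v, (b v).Prime) {g g' : GG} (hg : GSU b g) (hg' : GSU b g') :
    GSU b (g * g') := by
  obtain ⟨a, rfl, ha⟩ := hg
  obtain ⟨a', rfl, ha'⟩ := hg'
  exact ⟨fun n => a n * a' n, gm_mul a a', fun n => IsSU.mul hb (ha n) (ha' n)⟩

lemma GSU.pow (hb : ∀ v, (b v).Prime) {g : GG} (hg : GSU b g) (k : ℕ) : GSU b (g ^ k) := by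
  induction k with
  | zero => rw [pow_zero]; exact GSU.one
  | succ k ih => rw [pow_succ]; exact GSU.mul hb ih hg

lemma GSU.prod (hb : ∀ v, (b v).Prime) {ι : Type} (S : Finset ι) (f : ι → GG)
    (h : ∀ i ∈ S, GSU b (f i)) : GSU b (∏ i ∈ S, f i) := by
  classical
  induction S using Finset.induction_on with
  | empty => rw [Finset.prod_empty]; exact GSU.one
  | insert a S ha ih =>
    rw [Finset.prod_insert ha]
    exact GSU.mul hb (h a (Finset.mem_insert_self a S))
      (ih fun i hi => h i (Finset.mem_insert_of_mem hi))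

lemma GSU.ne_zero (hb : ∀ v, (b v).Prime) {g : GG} (hg : GSU b g) : g ≠ 0 := by
  obtain ⟨a, rfl, ha⟩ := hg
  exact gm_ne_zero.2 (Eventually.of_forall fun n => IsSU.ne_zero hb (ha n))

end units

/-! ### the polynomial in the units -/

section poly

variable {L : ℕ → ℝ} {hL : Tendsto L atTop atTop} {n r : ℕ}

/-- `F (∑ V j U_j)` -/
noncomputable def PV (V : Fin r → Fin (n + 1) → KK L hL) (F : MvPolynomial (Fin (n + 1)) ℚ) :
    MvPolynomial (Fin r) (KK L hL) :=
  MvPolynomial.eval₂ (MvPolynomial.C.comp (algebraMap ℚ (KK L hL)))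
    (fun i => ∑ j, MvPolynomial.C (V j i) * MvPolynomial.X j) F

lemma PV_hom (V : Fin r → Fin (n + 1) → KK L hL) (F : MvPolynomial (Fin (n + 1)) ℚ) (e : ℕ)
    (hF : F.IsHomogeneous e) : (PV V F).IsHomogeneous e := by
  have h1 := MvPolynomial.IsHomogeneous.eval₂ hF
    ((MvPolynomial.C : KK L hL →+* MvPolynomial (Fin r) (KK L hL)).comp (algebraMap ℚ (KK L hL)))
    (fun i => ∑ j, MvPolynomial.C (V j i) * MvPolynomial.X j) (n := 1)
    (fun q => MvPolynomial.isHomogeneous_C (Fin r) _) (fun i => by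
      refine MvPolynomial.IsHomogeneous.sum _ _ _ fun j _ => ?_
      simpa using (MvPolynomial.isHomogeneous_C (Fin r) (V j i)).mul
        (MvPolynomial.isHomogeneous_X (KK L hL) j))
  rw [one_mul] at h1
  exact h1

lemma PV_deg (V : Fin r → Fin (n + 1) → KK L hL) (F : MvPolynomial (Fin (n + 1)) ℚ) (e : ℕ)
    (hF : F.IsHomogeneous e) (α : Fin r →₀ ℕ) (hα : α ∈ (PV V F).support) : ∑ j, α j = e := by
  have h2 := PV_hom V F e hF (MvPolynomial.mem_support_iff.1 hα)
  rw [Finsupp.weight_apply, Finsupp.sum_fintype _ _ (by simp)] at h2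
  simpa using h2

/-- the image of `PV V F` under a homomorphism -/
lemma PV_map {A : Type} [CommRing A] [Algebra ℚ A] (ψ : MvPolynomial (Fin r) (KK L hL) →+* A)
    (V : Fin r → Fin (n + 1) → KK L hL) (F : MvPolynomial (Fin (n + 1)) ℚ) :
    ψ (PV V F) = MvPolynomial.aeval
      (fun i => ∑ j, ψ (MvPolynomial.C (V j i)) * ψ (MvPolynomial.X j)) F := by
  unfold PV
  rw [MvPolynomial.hom_eval₂, MvPolynomial.aeval_def]
  congr 1
  · exact Subsingleton.elim _ _
  · funext i
    simp [map_sum, map_mul]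

lemma ev_u (V : Fin r → Fin (n + 1) → KK L hL) (F : MvPolynomial (Fin (n + 1)) ℚ)
    (u : Fin r → GG) :
    MvPolynomial.aeval (fun i => ∑ j, u j * (V j i : GG)) F =
      ∑ α ∈ (PV V F).support, ((MvPolynomial.coeff α (PV V F) : KK L hL) : GG) *
        ∏ j, u j ^ (α j) := by
  have h1 := PV_map (MvPolynomial.eval₂Hom (KK L hL).subtype u) V F
  simp only [MvPolynomial.coe_eval₂Hom, MvPolynomial.eval₂_C, MvPolynomial.eval₂_X,
    Subfield.coe_subtype] at h1
  rw [MvPolynomial.eval₂_eq'] at h1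
  have h2 : (fun i => ∑ j, u j * (V j i : GG)) = fun i => ∑ j, (V j i : GG) * u j := by
    funext i
    exact Finset.sum_congr rfl fun j _ => mul_comm _ _
  rw [h2, ← h1]
  rfl

lemma ev_cur (V : Fin r → Fin (n + 1) → KK L hL) (F : MvPolynomial (Fin (n + 1)) ℚ)
    (u : Fin r → GG) (l : Fin r → ℕ) :
    MvPolynomial.aeval (cur (fun j i => u j * (V j i : GG)) l) F =
      ∑ α ∈ (PV V F).support, Polynomial.C (((MvPolynomial.coeff α (PV V F) : KK L hL) : GG) *
        ∏ j, u j ^ (α j)) * Polynomial.X ^ (∑ j, α j * l j) := by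
  have h1 := PV_map (MvPolynomial.eval₂Hom (Polynomial.C.comp (KK L hL).subtype)
    (fun j => Polynomial.C (u j) * Polynomial.X ^ (l j))) V F
  simp only [MvPolynomial.coe_eval₂Hom, MvPolynomial.eval₂_C, MvPolynomial.eval₂_X,
    RingHom.coe_comp, Function.comp_apply, Subfield.coe_subtype] at h1
  rw [MvPolynomial.eval₂_eq'] at h1
  have h2 : cur (fun j i => u j * (V j i : GG)) l = fun i => ∑ j, Polynomial.C (V j i : GG) *
      (Polynomial.C (u j) * Polynomial.X ^ (l j)) := by
    funext i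
    unfold cur
    refine Finset.sum_congr rfl fun j _ => ?_
    rw [Polynomial.C_mul]
    ring
  rw [h2, ← h1]
  refine Finset.sum_congr rfl fun α _ => ?_
  rw [Polynomial.C_mul, mul_assoc]
  congr 1
  simp only [mul_pow, Finset.prod_mul_distrib, ← pow_mul]
  rw [map_prod, Finset.prod_pow_eq_pow_sum]
  congr 1
  · exact Finset.prod_congr rfl fun j _ => by rw [map_pow]
  · congr 1
    exact Finset.sum_congr rfl fun j _ => mul_comm _ _

end poly

theorem crv (hcs : CSStmt) (hwt : WTStmt) : CRVStmt := by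
  classical
  intro s b hb hbi L hL n r FF hFF u hu V hV hne
  have hu0 : ∀ j, u j ≠ 0 := fun j => GSU.ne_zero hb (hu j)
  obtain ⟨l, hl1, hl2⟩ := hwt L hL r u hu0
  refine ⟨l, ?_, ?_⟩
  · intro F hF
    obtain ⟨e, he⟩ := hFF F hF
    rw [ev_cur]
    refine hcs s b hb hbi L hL (Fin r →₀ ℕ) (PV V F).support
      (fun α => MvPolynomial.coeff α (PV V F)) (fun α => ∏ j, u j ^ (α j))
      (fun α => ∑ j, α j * l j) ?_ ?_ ?_
    · intro α _
      exact GSU.prod hb _ _ fun j _ => GSU.pow hb (hu j) _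
    · intro α hα β hβ h
      refine hl1 α β ?_ h
      rw [PV_deg V F e he α hα, PV_deg V F e he β hβ]
    · rw [← ev_u]
      exact hV F hF
  · by_cases hcon : ∃ i i', cur (fun j i => u j * (V j i : GG)) l i *
        Polynomial.C (∑ j, u j * (V j i' : GG)) ≠
        cur (fun j i => u j * (V j i : GG)) l i' * Polynomial.C (∑ j, u j * (V j i : GG))
    · exact Or.inl hcon
    right
    push Not at hcon
    obtain ⟨i', hi'⟩ := hne
    set x : Fin (n + 1) → GG := fun i => ∑ j, u j * (V j i : GG) with hx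
    set c := cur (fun j i => u j * (V j i : GG)) l with hc
    have hev : (c i').eval 1 = x i' := cur_eval_one _ _ _
    have hci : c i' ≠ 0 := by
      intro h0
      rw [h0, Polynomial.eval_zero] at hev
      exact hi' hev.symm
    obtain ⟨w, hw⟩ : ∃ w, (c i').coeff w ≠ 0 := by
      by_contra hno
      push Not at hno
      exact hci (Polynomial.ext fun w => by rw [hno w, Polynomial.coeff_zero])
    have hcoeff : ∀ i, (c i).coeff w =
        ∑ j ∈ Finset.univ.filter (fun j => l j = w), u j * (V j i : GG) := by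
      intro i
      rw [hc]
      unfold cur
      rw [Polynomial.finsetSum_coeff, Finset.sum_filter]
      refine Finset.sum_congr rfl fun j _ => ?_
      rw [Polynomial.coeff_C_mul_X_pow]
      by_cases h : l j = w
      · rw [if_pos h, if_pos h.symm]
      · rw [if_neg h, if_neg (Ne.symm h)]
    obtain ⟨j0, hj0⟩ : ∃ j0, l j0 = w := by
      by_contra hno
      push Not at hno
      apply hw
      rw [hcoeff, Finset.filter_false_of_mem fun j _ => hno j, Finset.sum_empty]
    have hprop : ∀ i, (c i).coeff w * x i' = (c i').coeff w * x i := by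
      intro i
      have h1 := congrArg (fun p => Polynomial.coeff p w) (hcon i i')
      simp only [Polynomial.coeff_mul_C] at h1
      exact h1
    let f : Fin r → KK L hL := fun j => if h : u j / u j0 ∈ KK L hL then ⟨u j / u j0, h⟩ else 0
    have hf : ∀ j, l j = w → u j = u j0 * (f j : GG) := by
      intro j hj
      have h1 : u j / u j0 ∈ KK L hL := hl2 j j0 (hj.trans hj0.symm)
      simp only [f, dif_pos h1]
      rw [mul_div_cancel₀ _ (hu0 j0)]
    refine ⟨x i' / (c i').coeff w * u j0,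
      fun i => ∑ j ∈ Finset.univ.filter (fun j => l j = w), f j * V j i, ?_, ?_⟩
    · exact mul_ne_zero (div_ne_zero hi' hw) (hu0 j0)
    · intro i
      have h1 : (c i).coeff w = u j0 * ((∑ j ∈ Finset.univ.filter (fun j => l j = w),
          f j * V j i : KK L hL) : GG) := by
        rw [hcoeff]
        push_cast
        rw [Finset.mul_sum]
        refine Finset.sum_congr rfl fun j hj => ?_
        rw [hf j (Finset.mem_filter.1 hj).2]
        ring
      have h2 := hprop i
      rw [h1] at h2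
      have h3 : x i = x i' / (c i').coeff w * u j0 *
          ((∑ j ∈ Finset.univ.filter (fun j => l j = w), f j * V j i : KK L hL) : GG) := by
        field_simp
        rw [mul_comm (x i), ← h2]
        ring
      exact h3

end Pool.Agent.TH551.SU.CRV
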