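import Mathlib
import Pool.Agent.TH551.SU.CRV

/-!
# Project SU: germs of short S-unit sums on varieties with coefficients of small height
-/

set_option autoImplicit false

namespace Pool.Agent.TH551.SU.CrvK

open Filter Topology Pool.Agent.TH932.Germs Pool.Agent.TH551.SU Pool.Agent.H533R3.SL
open Pool.Agent.TH551.SU.CRV

section poly

variable {L : ℕ → ℝ} {hL : Tendsto L atTop atTop} {n r : ℕ}

/-- `F (∑ V j U_j)` -/
noncomputable def PVK (V : Fin r → Fin (n + 1) → KK L hL)
    (F : MvPolynomial (Fin (n + 1)) (KK L hL)) : MvPolynomial (Fin r) (KK L hL) :=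
  MvPolynomial.eval₂ MvPolynomial.C
    (fun i => ∑ j, MvPolynomial.C (V j i) * MvPolynomial.X j) F

lemma PVK_hom (V : Fin r → Fin (n + 1) → KK L hL) (F : MvPolynomial (Fin (n + 1)) (KK L hL))
    (e : ℕ) (hF : F.IsHomogeneous e) : (PVK V F).IsHomogeneous e := by
  have h1 := MvPolynomial.IsHomogeneous.eval₂ hF
    (MvPolynomial.C : KK L hL →+* MvPolynomial (Fin r) (KK L hL))
    (fun i => ∑ j, MvPolynomial.C (V j i) * MvPolynomial.X j) (n := 1)
    (fun q => MvPolynomial.isHomogeneous_C (Fin r) _) (fun i => by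
      refine MvPolynomial.IsHomogeneous.sum _ _ _ fun j _ => ?_
      simpa using (MvPolynomial.isHomogeneous_C (Fin r) (V j i)).mul
        (MvPolynomial.isHomogeneous_X (KK L hL) j))
  rw [one_mul] at h1
  exact h1

lemma PVK_deg (V : Fin r → Fin (n + 1) → KK L hL) (F : MvPolynomial (Fin (n + 1)) (KK L hL))
    (e : ℕ) (hF : F.IsHomogeneous e) (α : Fin r →₀ ℕ) (hα : α ∈ (PVK V F).support) :
    ∑ j, α j = e := by
  have h2 := PVK_hom V F e hF (MvPolynomial.mem_support_iff.1 hα)
  rw [Finsupp.weight_apply, Finsupp.sum_fintype _ _ (by simp)] at h2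
  simpa using h2

/-- the image of `PVK V F` under a homomorphism -/
lemma PVK_map {A : Type} [CommRing A] (ψ : MvPolynomial (Fin r) (KK L hL) →+* A)
    (V : Fin r → Fin (n + 1) → KK L hL) (F : MvPolynomial (Fin (n + 1)) (KK L hL)) :
    ψ (PVK V F) = MvPolynomial.eval₂ (ψ.comp MvPolynomial.C)
      (fun i => ∑ j, ψ (MvPolynomial.C (V j i)) * ψ (MvPolynomial.X j)) F := by
  unfold PVK
  rw [MvPolynomial.hom_eval₂]
  congr 1
  funext i
  simp [map_sum, map_mul]

lemma ev_u (V : Fin r → Fin (n + 1) → KK L hL) (F : MvPolynomial (Fin (n + 1)) (KK L hL))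
    (u : Fin r → GG) :
    MvPolynomial.eval₂ (KK L hL).subtype (fun i => ∑ j, u j * (V j i : GG)) F =
      ∑ α ∈ (PVK V F).support, ((MvPolynomial.coeff α (PVK V F) : KK L hL) : GG) *
        ∏ j, u j ^ (α j) := by
  have h1 := PVK_map (MvPolynomial.eval₂Hom (KK L hL).subtype u) V F
  have h0 : (MvPolynomial.eval₂Hom (KK L hL).subtype u).comp MvPolynomial.C =
      (KK L hL).subtype := by
    ext q
    simp
  rw [h0] at h1
  simp only [MvPolynomial.coe_eval₂Hom, MvPolynomial.eval₂_C, MvPolynomial.eval₂_X,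
    Subfield.coe_subtype] at h1
  rw [MvPolynomial.eval₂_eq'] at h1
  have h2 : (fun i => ∑ j, u j * (V j i : GG)) = fun i => ∑ j, (V j i : GG) * u j := by
    funext i
    exact Finset.sum_congr rfl fun j _ => mul_comm _ _
  rw [h2, ← h1]
  rfl

lemma ev_cur (V : Fin r → Fin (n + 1) → KK L hL) (F : MvPolynomial (Fin (n + 1)) (KK L hL))
    (u : Fin r → GG) (l : Fin r → ℕ) :
    MvPolynomial.eval₂ (Polynomial.C.comp (KK L hL).subtype)
        (cur (fun j i => u j * (V j i : GG)) l) F =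
      ∑ α ∈ (PVK V F).support, Polynomial.C (((MvPolynomial.coeff α (PVK V F) : KK L hL) : GG) *
        ∏ j, u j ^ (α j)) * Polynomial.X ^ (∑ j, α j * l j) := by
  have h1 := PVK_map (MvPolynomial.eval₂Hom (Polynomial.C.comp (KK L hL).subtype)
    (fun j => Polynomial.C (u j) * Polynomial.X ^ (l j))) V F
  have h0 : (MvPolynomial.eval₂Hom (Polynomial.C.comp (KK L hL).subtype)
    (fun j => Polynomial.C (u j) * Polynomial.X ^ (l j))).comp MvPolynomial.C =
      Polynomial.C.comp (KK L hL).subtype := by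
    ext q
    simp
  rw [h0] at h1
  simp only [MvPolynomial.coe_eval₂Hom, MvPolynomial.eval₂_C, MvPolynomial.eval₂_X,
    RingHom.coe_comp, Function.comp_apply, Subfield.coe_subtype] at h1
  rw [MvPolynomial.eval₂_eq'] at h1
  have h2 : cur (fun j i => u j * (V j i : GG)) l = fun i => ∑ j, Polynomial.C (V j i : GG) *
      (Polynomial.C (u j) * Polynomial.X ^ (l j)) := by
    funext i
    unfold cur
    refine Finset.sum_congr rfl fun j _ => ?_
    rw [Polynomial.C_mul]
    ring
  rw [h2, ← h1]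
  refine Finset.sum_congr rfl fun α _ => ?_
  rw [Polynomial.C_mul, mul_assoc]
  congr 1
  simp only [mul_pow, Finset.prod_mul_distrib, ← pow_mul]
  rw [map_prod, Finset.prod_pow_eq_pow_sum]
  congr 1
  · exact Finset.prod_congr rfl fun j _ => by rw [map_pow]
  · congr 1
    exact Finset.sum_congr rfl fun j _ => mul_comm _ _

end poly

/-- bounded weights compatible with the relations of degree at most `d` -/
def WTD (d r D : ℕ) : Prop :=
  ∀ (L : ℕ → ℝ) (hL : Tendsto L atTop atTop) (u : Fin r → GG) (_ : ∀ j, u j ≠ 0),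
    ∃ l : Fin r → ℕ, (∀ j, l j ≤ D) ∧
      (∀ α β : Fin r → ℕ, ∑ j, α j = ∑ j, β j → ∑ j, α j ≤ d →
        (∏ j, u j ^ (α j)) / (∏ j, u j ^ (β j)) ∈ KK L hL → ∑ j, α j * l j = ∑ j, β j * l j) ∧
      ∀ j j', l j = l j' → u j / u j' ∈ KK L hL

/-- weights can be replaced by bounded weights -/
lemma exists_bdd (d r : ℕ) : ∃ D : ℕ, ∀ l : Fin r → ℕ, ∃ l' : Fin r → ℕ, (∀ j, l' j ≤ D) ∧
    ∀ α β : Fin r → ℕ, (∀ j, α j ≤ d + 1) → (∀ j, β j ≤ d + 1) →
      (∑ j, α j * l j = ∑ j, β j * l j ↔ ∑ j, α j * l' j = ∑ j, β j * l' j) := by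
  classical
  let sig : (Fin r → ℕ) → ((Fin r → Fin (d + 2)) × (Fin r → Fin (d + 2)) → Prop) :=
    fun l q => ∑ j, (q.1 j : ℕ) * l j = ∑ j, (q.2 j : ℕ) * l j
  let rep : ((Fin r → Fin (d + 2)) × (Fin r → Fin (d + 2)) → Prop) → Fin r → ℕ :=
    fun s => if h : ∃ l, sig l = s then h.choose else 0
  have hrep : ∀ l, sig (rep (sig l)) = sig l := by
    intro l
    have h : ∃ l', sig l' = sig l := ⟨l, rfl⟩
    simp only [rep, dif_pos h]
    exact h.choose_spec
  obtain ⟨D, hD⟩ : ∃ D : ℕ, ∀ (s : (Fin r → Fin (d + 2)) × (Fin r → Fin (d + 2)) → Prop)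
      (j : Fin r), rep s j ≤ D := by
    have hfin : Finite (((Fin r → Fin (d + 2)) × (Fin r → Fin (d + 2)) → Prop) × Fin r) :=
      inferInstance
    obtain ⟨D, hD⟩ := (Set.finite_range (fun q : ((Fin r → Fin (d + 2)) ×
      (Fin r → Fin (d + 2)) → Prop) × Fin r => rep q.1 q.2)).bddAbove
    exact ⟨D, fun s j => hD ⟨(s, j), rfl⟩⟩
  refine ⟨D, fun l => ⟨rep (sig l), hD _, fun α β hα hβ => ?_⟩⟩
  have h1 := congrFun (hrep l) (fun j => ⟨α j, Nat.lt_succ_of_le (hα j)⟩,
    fun j => ⟨β j, Nat.lt_succ_of_le (hβ j)⟩)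
  exact (Eq.to_iff h1).symm

lemma wtd (hwt : WTStmt) (d r : ℕ) : ∃ D, WTD d r D := by
  classical
  obtain ⟨D, hD⟩ := exists_bdd d r
  refine ⟨D, fun L hL u hu => ?_⟩
  obtain ⟨l, hl1, hl2⟩ := hwt L hL r u hu
  obtain ⟨l', hl', hll⟩ := hD l
  refine ⟨l', hl', ?_, ?_⟩
  · intro α β h1 h2 h3
    have hb : ∀ (γ : Fin r → ℕ), ∑ j, γ j ≤ d → ∀ j, γ j ≤ d + 1 := by
      intro γ hγ j
      have h5 : γ j ≤ ∑ j, γ j :=
        Finset.single_le_sum (f := fun j => γ j) (fun _ _ => Nat.zero_le _) (Finset.mem_univ j)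
      omega
    exact (hll α β (hb α h2) (hb β (h1 ▸ h2))).1 (hl1 α β h1 h3)
  · intro j j' h
    apply hl2
    have h1 := (hll (Pi.single j 1) (Pi.single j' 1) (fun k => ?_) (fun k => ?_)).2 ?_
    · simpa [Pi.single_apply] using h1
    · rw [Pi.single_apply]
      split_ifs <;> omega
    · rw [Pi.single_apply]
      split_ifs <;> omega
    · simpa [Pi.single_apply] using h

/-- a germ of points that are short sums of `S`-units, on a variety over the negligible field, lies
on a rational curve, or its height is negligible -/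
theorem crvK (hcs : CSStmt) (d r D : ℕ) (hD : WTD d r D) (s : ℕ) (b : Fin s → ℕ)
    (hb : ∀ v, (b v).Prime) (hbi : Function.Injective b) (L : ℕ → ℝ)
    (hL : Tendsto L atTop atTop) (n : ℕ) (FF : Set (MvPolynomial (Fin (n + 1)) (KK L hL)))
    (hFF : ∀ F ∈ FF, ∃ e ≤ d, F.IsHomogeneous e)
    (u : Fin r → GG) (hu : ∀ j, GSU b (u j)) (V : Fin r → Fin (n + 1) → KK L hL)
    (hV : ∀ F ∈ FF, MvPolynomial.eval₂ (KK L hL).subtype
      (fun i => ∑ j, u j * (V j i : GG)) F = 0)
    (hne : ∃ i, ∑ j, u j * (V j i : GG) ≠ 0) :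
    ∃ l : Fin r → ℕ, (∀ j, l j ≤ D) ∧
      (∀ F ∈ FF, MvPolynomial.eval₂ (Polynomial.C.comp (KK L hL).subtype)
        (cur (fun j i => u j * (V j i : GG)) l) F = 0) ∧
      ((∃ i i', cur (fun j i => u j * (V j i : GG)) l i * Polynomial.C (∑ j, u j * (V j i' : GG)) ≠
          cur (fun j i => u j * (V j i : GG)) l i' * Polynomial.C (∑ j, u j * (V j i : GG))) ∨
        ∃ (μ : GG) (z : Fin (n + 1) → KK L hL), μ ≠ 0 ∧
          ∀ i, ∑ j, u j * (V j i : GG) = μ * (z i : GG)) := by
  classical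
  have hu0 : ∀ j, u j ≠ 0 := fun j => GSU.ne_zero hb (hu j)
  obtain ⟨l, hlD, hl1, hl2⟩ := hD L hL u hu0
  refine ⟨l, hlD, ?_, ?_⟩
  · intro F hF
    obtain ⟨e, hed, he⟩ := hFF F hF
    rw [ev_cur]
    refine hcs s b hb hbi L hL (Fin r →₀ ℕ) (PVK V F).support
      (fun α => MvPolynomial.coeff α (PVK V F)) (fun α => ∏ j, u j ^ (α j))
      (fun α => ∑ j, α j * l j) ?_ ?_ ?_
    · intro α _
      exact GSU.prod hb _ _ fun j _ => GSU.pow hb (hu j) _
    · intro α hα β hβ h
      refine hl1 α β ?_ ?_ h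
      · rw [PVK_deg V F e he α hα, PVK_deg V F e he β hβ]
      · rw [PVK_deg V F e he α hα]
        exact hed
    · rw [← ev_u]
      exact hV F hF
  · by_cases hcon : ∃ i i', cur (fun j i => u j * (V j i : GG)) l i *
        Polynomial.C (∑ j, u j * (V j i' : GG)) ≠
        cur (fun j i => u j * (V j i : GG)) l i' * Polynomial.C (∑ j, u j * (V j i : GG))
    · exact Or.inl hcon
    right
    push Not at hcon
    obtain ⟨i', hi'⟩ := hne
    set x : Fin (n + 1) → GG := fun i => ∑ j, u j * (V j i : GG) with hx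
    set c := cur (fun j i => u j * (V j i : GG)) l with hc
    have hev : (c i').eval 1 = x i' := cur_eval_one _ _ _
    have hci : c i' ≠ 0 := by
      intro h0
      rw [h0, Polynomial.eval_zero] at hev
      exact hi' hev.symm
    obtain ⟨w, hw⟩ : ∃ w, (c i').coeff w ≠ 0 := by
      by_contra hno
      push Not at hno
      exact hci (Polynomial.ext fun w => by rw [hno w, Polynomial.coeff_zero])
    have hcoeff : ∀ i, (c i).coeff w =
        ∑ j ∈ Finset.univ.filter (fun j => l j = w), u j * (V j i : GG) := by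
      intro i
      rw [hc]
      unfold cur
      rw [Polynomial.finsetSum_coeff, Finset.sum_filter]
      refine Finset.sum_congr rfl fun j _ => ?_
      rw [Polynomial.coeff_C_mul_X_pow]
      by_cases h : l j = w
      · rw [if_pos h, if_pos h.symm]
      · rw [if_neg h, if_neg (Ne.symm h)]
    obtain ⟨j0, hj0⟩ : ∃ j0, l j0 = w := by
      by_contra hno
      push Not at hno
      apply hw
      rw [hcoeff, Finset.filter_false_of_mem fun j _ => hno j, Finset.sum_empty]
    have hprop : ∀ i, (c i).coeff w * x i' = (c i').coeff w * x i := by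
      intro i
      have h1 := congrArg (fun p => Polynomial.coeff p w) (hcon i i')
      simp only [Polynomial.coeff_mul_C] at h1
      exact h1
    let f : Fin r → KK L hL := fun j => if h : u j / u j0 ∈ KK L hL then ⟨u j / u j0, h⟩ else 0
    have hf : ∀ j, l j = w → u j = u j0 * (f j : GG) := by
      intro j hj
      have h1 : u j / u j0 ∈ KK L hL := hl2 j j0 (hj.trans hj0.symm)
      simp only [f, dif_pos h1]
      rw [mul_div_cancel₀ _ (hu0 j0)]
    refine ⟨x i' / (c i').coeff w * u j0,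
      fun i => ∑ j ∈ Finset.univ.filter (fun j => l j = w), f j * V j i, ?_, ?_⟩
    · exact mul_ne_zero (div_ne_zero hi' hw) (hu0 j0)
    · intro i
      have h1 : (c i).coeff w = u j0 * ((∑ j ∈ Finset.univ.filter (fun j => l j = w),
          f j * V j i : KK L hL) : GG) := by
        rw [hcoeff]
        push_cast
        rw [Finset.mul_sum]
        refine Finset.sum_congr rfl fun j hj => ?_
        rw [hf j (Finset.mem_filter.1 hj).2]
        ring
      have h2 := hprop i
      rw [h1] at h2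
      have h3 : x i = x i' / (c i').coeff w * u j0 *
          ((∑ j ∈ Finset.univ.filter (fun j => l j = w), f j * V j i : KK L hL) : GG) := by
        field_simp
        rw [mul_comm (x i), ← h2]
        ring
      exact h3

end Pool.Agent.TH551.SU.CrvK
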