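import Mathlib
import Pool.Agent.TH551.SU.CrvK
import Pool.Agent.TH551.SU.Main
import Pool.Agent.TH551.ZP.Mono

/-!
# Project SU: short sums of S-units on arbitrary projective varieties, uniformly
-/

set_option autoImplicit false

namespace Pool.Agent.TH551.SU.Uni

open Filter Topology Pool.Agent.TH932.Germs Pool.Agent.TH551.SU Pool.Agent.TH551.SU.Ht Height
open Pool.Agent.H533R3.SL Pool.Agent.TH551.SU.Main Pool.Agent.TH551.ZP Pool.Agent.TH551.ZP.GT

/-- the logarithmic height of the vector of the coefficients of a polynomial -/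
noncomputable def formHeight {n : ℕ} (F : MvPolynomial (Fin (n + 1)) ℚ) : ℝ :=
  logHeight (fun a : F.support => MvPolynomial.coeff (a : Fin (n + 1) →₀ ℕ) F)

lemma formHeight_nonneg {n : ℕ} (F : MvPolynomial (Fin (n + 1)) ℚ) : 0 ≤ formHeight F :=
  logHeight_nonneg _

/-- small integral coefficients -/
lemma exists_prim {n : ℕ} (F : MvPolynomial (Fin (n + 1)) ℚ) :
    ∃ (c : ℚ) (z : (Fin (n + 1) →₀ ℕ) → ℤ), c ≠ 0 ∧ (∀ α, MvPolynomial.coeff α F = c * z α) ∧
      ∀ α, |(z α : ℝ)| ≤ Real.exp (formHeight F) := by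
  classical
  by_cases hF : F = 0
  · refine ⟨1, fun _ => 0, one_ne_zero, fun α => by simp [hF], fun α => ?_⟩
    rw [Int.cast_zero, abs_zero]
    exact (Real.exp_pos _).le
  · obtain ⟨α0, hα0⟩ := MvPolynomial.support_nonempty.2 hF
    have hne : Nonempty F.support := ⟨⟨α0, hα0⟩⟩
    obtain ⟨c, w, hc, hw, hwb⟩ := exists_primitive
      (fun a : F.support => MvPolynomial.coeff (a : Fin (n + 1) →₀ ℕ) F) (by
        intro h0
        exact MvPolynomial.mem_support_iff.1 hα0 (congrFun h0 ⟨α0, hα0⟩))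
    refine ⟨c, fun α => if h : α ∈ F.support then w ⟨α, h⟩ else 0, hc, fun α => ?_, fun α => ?_⟩
    · by_cases h : α ∈ F.support
      · simp only [dif_pos h]
        exact hw ⟨α, h⟩
      · simp only [dif_neg h]
        rw [MvPolynomial.notMem_support_iff.1 h]
        simp
    · by_cases h : α ∈ F.support
      · simp only [dif_pos h]
        exact hwb ⟨α, h⟩
      · simp only [dif_neg h]
        rw [Int.cast_zero, abs_zero]
        exact (Real.exp_pos _).le

/-- homogeneous polynomials and scaling -/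
lemma aeval_mul' {n : ℕ} {A : Type} [CommRing A] [Algebra ℚ A]
    (F : MvPolynomial (Fin (n + 1)) ℚ) (e : ℕ) (hF : F.IsHomogeneous e)
    (c : A) (x : Fin (n + 1) → A) :
    MvPolynomial.aeval (fun i => c * x i) F = c ^ e * MvPolynomial.aeval x F := by
  rw [MvPolynomial.aeval_def, MvPolynomial.eval₂_eq', MvPolynomial.aeval_def,
    MvPolynomial.eval₂_eq', Finset.mul_sum]
  refine Finset.sum_congr rfl fun α hα => ?_
  have h2 := hF (MvPolynomial.mem_support_iff.1 hα)
  rw [Finsupp.weight_apply, Finsupp.sum_fintype _ _ (by simp)] at h2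
  have h3 : ∑ j, α j = e := by simpa using h2
  rw [← h3, ← Finset.prod_pow_eq_pow_sum]
  simp only [mul_pow]
  rw [Finset.prod_mul_distrib]
  ring

lemma natDegree_aeval_le {n : ℕ} (F : MvPolynomial (Fin (n + 1)) ℚ) (e Λ : ℕ)
    (hF : F.IsHomogeneous e) (p : Fin (n + 1) → Polynomial ℚ) (hp : ∀ i, (p i).natDegree ≤ Λ) :
    (MvPolynomial.aeval p F).natDegree ≤ e * Λ := by
  rw [MvPolynomial.aeval_def, MvPolynomial.eval₂_eq']
  refine Polynomial.natDegree_sum_le_of_forall_le _ _ fun α hα => ?_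
  have h2 := hF (MvPolynomial.mem_support_iff.1 hα)
  rw [Finsupp.weight_apply, Finsupp.sum_fintype _ _ (by simp)] at h2
  have h3 : ∑ j, α j = e := by simpa using h2
  refine (Polynomial.natDegree_mul_le).trans ?_
  have h4 : (algebraMap ℚ (Polynomial ℚ) (MvPolynomial.coeff α F)).natDegree = 0 := by
    rw [Polynomial.algebraMap_eq, Polynomial.natDegree_C]
  rw [h4, zero_add, ← h3, Finset.sum_mul]
  refine (Polynomial.natDegree_prod_le _ _).trans (Finset.sum_le_sum fun i _ => ?_)
  exact (Polynomial.natDegree_pow_le).trans (Nat.mul_le_mul_left _ (hp i))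

lemma natDegree_cur_le {R : Type} [CommRing R] {n r : ℕ} (c : Fin r → Fin (n + 1) → R)
    (l : Fin r → ℕ) (Λ : ℕ) (hl : ∀ j, l j ≤ Λ) (i : Fin (n + 1)) :
    (cur c l i).natDegree ≤ Λ := by
  unfold cur
  refine Polynomial.natDegree_sum_le_of_forall_le _ _ fun j _ => ?_
  exact (Polynomial.natDegree_C_mul_X_pow_le _ _).trans (hl j)

lemma cur_eval {R : Type} [CommRing R] {n r : ℕ} (c : Fin r → Fin (n + 1) → R)
    (l : Fin r → ℕ) (i : Fin (n + 1)) (τ : R) :
    (cur c l i).eval τ = ∑ j, c j i * τ ^ (l j) := by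
  unfold cur
  rw [Polynomial.eval_finsetSum]
  refine Finset.sum_congr rfl fun j _ => ?_
  simp

lemma eq_zero_of_evals {R : Type} [Field R] [CharZero R] (p : Polynomial R) (B : ℕ)
    (hp : p.natDegree ≤ B) (h : ∀ τ : ℕ, τ ≤ B → p.eval (τ : R) = 0) : p = 0 := by
  refine Polynomial.eq_zero_of_natDegree_lt_card_of_eval_eq_zero p
    (f := fun i : Fin (B + 1) => ((i : ℕ) : R)) ?_ ?_ ?_
  · intro i j hij
    exact Fin.ext (Nat.cast_injective hij)
  · intro i
    exact h i (Nat.lt_succ_iff.1 i.2)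
  · rw [Fintype.card_fin]
    omega

/-- a polynomial of degree at most `d` is the sum over `Ex` -/
lemma aeval_eq_sum {n d : ℕ} (F : MvPolynomial (Fin (n + 1)) ℚ) (e : ℕ) (he : e ≤ d)
    (hF : F.IsHomogeneous e) (x : Fin (n + 1) → ℚ) :
    MvPolynomial.aeval x F =
      ∑ a : Ex (n + 1) d, MvPolynomial.coeff (ex a) F * ∏ i, x i ^ (a.1 i : ℕ) := by
  classical
  rw [MvPolynomial.aeval_def, MvPolynomial.eval₂_eq']
  have h1 : ∀ α ∈ F.support, ∃ a : Ex (n + 1) d, ex a = α := by
    intro α hα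
    have h2 := hF (MvPolynomial.mem_support_iff.1 hα)
    rw [Finsupp.weight_apply, Finsupp.sum_fintype _ _ (by simp)] at h2
    have h3 : ∑ j, α j = e := by simpa using h2
    have h4 : ∀ j, α j < d + 1 := by
      intro j
      have h5 : α j ≤ ∑ j, α j :=
        Finset.single_le_sum (f := fun j => α j) (fun _ _ => Nat.zero_le _) (Finset.mem_univ j)
      omega
    refine ⟨⟨fun j => ⟨α j, h4 j⟩, ?_⟩, ?_⟩
    · show ∑ j, α j ≤ d
      omega
    · ext j
      rfl
  refine Finset.sum_bij_ne_zero (fun α hα _ => (h1 α hα).choose) (fun α hα _ => Finset.mem_univ _)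
    ?_ ?_ ?_
  · intro α hα _ β hβ _ hab
    rw [← (h1 α hα).choose_spec, ← (h1 β hβ).choose_spec, hab]
  · intro a _ ha
    have h2 : ex a ∈ F.support := by
      rw [MvPolynomial.mem_support_iff]
      exact left_ne_zero_of_mul ha
    refine ⟨ex a, h2, ?_, ex_inj (h1 _ h2).choose_spec⟩
    exact ha
  · intro α hα _
    conv_lhs => rw [← (h1 α hα).choose_spec]
    rfl


/-- sums of germs -/
lemma gm_sum {ι : Type} (A : Finset ι) (f : ι → ℕ → ℚ) :
    ∑ a ∈ A, gm (f a) = gm (fun t => ∑ a ∈ A, f a t) := by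
  classical
  induction A using Finset.induction_on with
  | empty => simp [gm_zero]
  | insert x A hx ih =>
    rw [Finset.sum_insert hx, ih, gm_add]
    congr 1
    funext n
    rw [Finset.sum_insert hx]

/-- products of germs -/
lemma gm_prod {ι : Type} (A : Finset ι) (f : ι → ℕ → ℚ) :
    ∏ a ∈ A, gm (f a) = gm (fun t => ∏ a ∈ A, f a t) := by
  classical
  induction A using Finset.induction_on with
  | empty => simp [gm_one]
  | insert x A hx ih =>
    rw [Finset.prod_insert hx, ih, gm_mul]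
    congr 1
    funext n
    rw [Finset.prod_insert hx]

lemma gm_natCast (τ : ℕ) : (τ : GG) = gm (fun _ => (τ : ℚ)) := by
  have h := algebraMap_eq (τ : ℚ)
  rw [map_natCast] at h
  exact h

/-- the form over the negligible field with coefficients the germs of `z` -/
noncomputable def hat {L : ℕ → ℝ} (hL : Tendsto L atTop atTop) (n d : ℕ)
    (z : ℕ → (Fin (n + 1) →₀ ℕ) → ℤ) : MvPolynomial (Fin (n + 1)) (KK L hL) :=
  open Classical in
  ∑ a : Ex (n + 1) d, MvPolynomial.monomial (ex a)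
    (if h : gm (fun t => (z t (ex a) : ℚ)) ∈ KK L hL then ⟨_, h⟩ else 0)

lemma hat_eval {L : ℕ → ℝ} (hL : Tendsto L atTop atTop) (n d : ℕ)
    (z : ℕ → (Fin (n + 1) →₀ ℕ) → ℤ) (hz : ∀ α, gm (fun t => (z t α : ℚ)) ∈ KK L hL)
    (x : Fin (n + 1) → ℕ → ℚ) :
    MvPolynomial.eval₂ (KK L hL).subtype (fun i => gm (x i)) (hat hL n d z) =
      gm (fun t => ∑ a : Ex (n + 1) d, (z t (ex a) : ℚ) * ∏ i, x i t ^ (a.1 i : ℕ)) := by
  classical
  unfold hat
  rw [MvPolynomial.eval₂_sum, ← gm_sum]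
  refine Finset.sum_congr rfl fun a _ => ?_
  rw [MvPolynomial.eval₂_monomial, dif_pos (hz _), Subfield.coe_subtype,
    Finsupp.prod_fintype _ _ (fun i => pow_zero _)]
  have h1 : ∀ i, gm (x i) ^ (ex a i) = gm (fun t => x i t ^ (a.1 i : ℕ)) := fun i => rfl
  simp only [h1]
  rw [gm_prod, gm_mul]

lemma hat_hom {L : ℕ → ℝ} (hL : Tendsto L atTop atTop) (n d e : ℕ)
    (z : ℕ → (Fin (n + 1) →₀ ℕ) → ℤ)
    (hz : ∀ α : Fin (n + 1) →₀ ℕ, α.degree ≠ e → gm (fun t => (z t α : ℚ)) = 0) :
    (hat hL n d z).IsHomogeneous e := by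
  classical
  unfold hat
  refine MvPolynomial.IsHomogeneous.sum _ _ _ fun a _ => ?_
  by_cases he : (ex a).degree = e
  · exact MvPolynomial.isHomogeneous_monomial _ he
  · have h1 : (if h : gm (fun t => (z t (ex a) : ℚ)) ∈ KK L hL then
        (⟨_, h⟩ : KK L hL) else 0) = 0 := by
      split_ifs with h
      · exact Subtype.ext (hz _ he)
      · rfl
    rw [h1, MvPolynomial.monomial_zero]
    exact MvPolynomial.isHomogeneous_zero _ _ _

lemma eval₂_cur_eval {L : ℕ → ℝ} (hL : Tendsto L atTop atTop) {n : ℕ}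
    (P : MvPolynomial (Fin (n + 1)) (KK L hL)) (p : Fin (n + 1) → Polynomial GG)
    (h : MvPolynomial.eval₂ (Polynomial.C.comp (KK L hL).subtype) p P = 0) (τ : GG) :
    MvPolynomial.eval₂ (KK L hL).subtype (fun i => (p i).eval τ) P = 0 := by
  have h1 := congrArg (Polynomial.evalRingHom τ) h
  rw [MvPolynomial.hom_eval₂, map_zero] at h1
  have h2 : (Polynomial.evalRingHom τ).comp (Polynomial.C.comp (KK L hL).subtype) =
      (KK L hL).subtype := by
    ext q
    simp
  rw [h2] at h1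
  exact h1


/-- **Short sums of S-units on arbitrary projective varieties, uniformly in the variety.** -/
theorem uni (hcs : CSStmt) (hwt : WTStmt) (d r : ℕ) :
    ∃ D : ℕ, ∀ (n : ℕ) (Γ : Subgroup ℚˣ), Γ.FG → ∃ C : ℝ,
      ∀ (FF : Set (MvPolynomial (Fin (n + 1)) ℚ)) (H : ℝ), 0 ≤ H →
      (∀ F ∈ FF, (∃ e ≤ d, F.IsHomogeneous e) ∧ formHeight F ≤ H) →
      ∀ (u : Fin r → Γ) (v : Fin r → Fin (n + 1) → ℚ),
        (∀ F ∈ FF, MvPolynomial.aeval (fun i => ∑ j, ((u j : ℚˣ) : ℚ) * v j i) F = 0) →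
        C * (1 + H + logHeight (fun q : Fin r × Fin (n + 1) => v q.1 q.2)) <
          logHeight (fun i => ∑ j, ((u j : ℚˣ) : ℚ) * v j i) →
        ∃ l : Fin r → ℕ, (∀ j, l j ≤ D) ∧
          (∀ F ∈ FF, MvPolynomial.aeval (cur (fun j i => ((u j : ℚˣ) : ℚ) * v j i) l) F = 0) ∧
          ∃ i i', cur (fun j i => ((u j : ℚˣ) : ℚ) * v j i) l i *
              Polynomial.C (∑ j, ((u j : ℚˣ) : ℚ) * v j i') ≠
            cur (fun j i => ((u j : ℚˣ) : ℚ) * v j i) l i' *
              Polynomial.C (∑ j, ((u j : ℚˣ) : ℚ) * v j i) := by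
  classical
  obtain ⟨D, hD⟩ := CrvK.wtd hwt d r
  refine ⟨D, fun n Γ hΓ => ?_⟩
  obtain ⟨s, b, hb, hbi, hΓb⟩ := exists_base Γ hΓ
  by_contra hcon
  push Not at hcon
  choose FF H hH hFF u v hF hht hno using fun t : ℕ => hcon (t : ℝ)
  set x : ℕ → Fin (n + 1) → ℚ := fun t i => ∑ j, ((u t j : ℚˣ) : ℚ) * v t j i with hx
  set vv : ℕ → Fin r × Fin (n + 1) → ℚ := fun t q => v t q.1 q.2 with hvv
  have hxh : ∀ t, 0 < logHeight (x t) := by
    intro t
    have h1 := logHeight_nonneg (vv t)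
    have h0 := hH t
    have h2 : (0 : ℝ) ≤ (t : ℝ) * (1 + H t + logHeight (vv t)) := by positivity
    exact lt_of_le_of_lt h2 (hht t)
  have hx0 : ∀ t, x t ≠ 0 := by
    intro t h0
    have h1 := hxh t
    rw [h0, logHeight_zero] at h1
    exact lt_irrefl _ h1
  have hv0 : ∀ t, vv t ≠ 0 := by
    intro t h0
    apply hx0 t
    funext i
    refine Finset.sum_eq_zero fun j _ => ?_
    have h1 : v t j i = 0 := congrFun h0 (j, i)
    rw [h1, mul_zero]
  have hr : Nonempty (Fin r) := by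
    by_contra h
    rw [not_nonempty_iff] at h
    apply hx0 0
    funext i
    exact Finset.sum_eq_zero fun j _ => (h.false j).elim
  choose c w hc hvw hw using fun t => exists_primitive (vv t) (hv0 t)
  set y : ℕ → Fin (n + 1) → ℚ := fun t i => ∑ j, ((u t j : ℚˣ) : ℚ) * (w t (j, i) : ℚ) with hy
  have hxy : ∀ t, x t = c t • y t := by
    intro t
    funext i
    rw [Pi.smul_apply, smul_eq_mul, hx, hy]
    simp only
    rw [Finset.mul_sum]
    refine Finset.sum_congr rfl fun j _ => ?_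
    have h1 : v t j i = c t * w t (j, i) := hvw t (j, i)
    rw [h1]
    ring
  have hxy' : ∀ t, x t = fun i => c t * y t i := hxy
  set L : ℕ → ℝ := fun t => logHeight (y t) with hLdef
  have hLx : ∀ t, logHeight (x t) = L t := by
    intro t
    rw [hxy t, logHeight_smul_eq_logHeight _ (hc t)]
  have hLt : ∀ t : ℕ, (t : ℝ) * (1 + H t + logHeight (vv t)) < L t := by
    intro t
    rw [← hLx]
    exact hht t
  have hL : Tendsto L atTop atTop := by
    refine tendsto_atTop_mono (fun t => ?_) tendsto_natCast_atTop_atTop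
    have h1 := logHeight_nonneg (vv t)
    have h0 := hH t
    have h2 : (0 : ℝ) ≤ (t : ℝ) * (H t + logHeight (vv t)) := by positivity
    have h3 := hLt t
    have h4 : (t : ℝ) * (1 + H t + logHeight (vv t)) = t + t * (H t + logHeight (vv t)) := by ring
    linarith
  -- quantities bounded by `H t + logHeight (vv t)` are negligible
  have hneg : ∀ m : ℕ → ℤ, (∀ t, |(m t : ℝ)| ≤ Real.exp (H t + logHeight (vv t))) →
      Negl L m := by
    intro m hm ε hε
    have h1 : ∀ᶠ t : ℕ in atTop, 1 / ε ≤ (t : ℝ) :=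
      tendsto_natCast_atTop_atTop.eventually_ge_atTop _
    refine ev_of_atTop (h1.mono fun t ht => ?_)
    refine (hm t).trans (Real.exp_le_exp.2 ?_)
    have h2 : 0 ≤ H t + logHeight (vv t) := add_nonneg (hH t) (logHeight_nonneg (vv t))
    have h3 := hLt t
    have h4 : 1 / ε * (H t + logHeight (vv t)) ≤ (t : ℝ) * (1 + H t + logHeight (vv t)) := by
      have h5 : (0 : ℝ) ≤ t := Nat.cast_nonneg t
      nlinarith [mul_le_mul_of_nonneg_right ht h2]
    have h5 : 1 / ε * (H t + logHeight (vv t)) ≤ L t := h4.trans h3.le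
    rw [one_div, inv_mul_le_iff₀ hε] at h5
    exact h5
  have hwN : ∀ q, Negl L (fun t => w t q) := fun q =>
    hneg _ fun t => (hw t q).trans (Real.exp_le_exp.2 (by linarith [hH t]))
  have hKK : ∀ m : ℕ → ℤ, Negl L m → gm (fun t => (m t : ℚ)) ∈ KK L hL := fun m hm =>
    ⟨_, _, hm, Negl.one hL, by simp, by
      congr 1
      funext t
      simp⟩
  -- the germs
  set U : Fin r → GG := fun j => gm (fun t => ((u t j : ℚˣ) : ℚ)) with hU
  have hUS : ∀ j, GSU b (U j) := fun j => ⟨_, rfl, fun t => hΓb _ (u t j).2⟩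
  have hwK : ∀ q, gm (fun t => (w t q : ℚ)) ∈ KK L hL := fun q => hKK _ (hwN q)
  set V : Fin r → Fin (n + 1) → KK L hL := fun j i => ⟨_, hwK (j, i)⟩ with hV
  have hUV : ∀ j i, U j * (V j i : GG) =
      gm (fun t => ((u t j : ℚˣ) : ℚ) * (w t (j, i) : ℚ)) := fun j i => gm_mul _ _
  have hsum : ∀ i, ∑ j, U j * (V j i : GG) = gm (fun t => y t i) := by
    intro i
    simp only [hUV]
    exact gm_sum _ _
  -- the coefficients
  choose cc zz hcc hzz hzzb using fun F : MvPolynomial (Fin (n + 1)) ℚ => exists_prim F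
  have hFd : ∀ (F : ℕ → MvPolynomial (Fin (n + 1)) ℚ), (∀ t, F t = 0 ∨ F t ∈ FF t) →
      ∀ t, ∃ e ≤ d, (F t).IsHomogeneous e := by
    intro F hFm t
    rcases hFm t with h | h
    · rw [h]
      exact ⟨0, Nat.zero_le _, MvPolynomial.isHomogeneous_zero _ _ _⟩
    · exact (hFF t _ h).1
  have hzK : ∀ (F : ℕ → MvPolynomial (Fin (n + 1)) ℚ), (∀ t, F t = 0 ∨ F t ∈ FF t) →
      ∀ α, gm (fun t => (zz (F t) α : ℚ)) ∈ KK L hL := by
    intro F hFm α
    refine hKK _ (hneg _ fun t => ?_)
    rcases hFm t with h | h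
    · have h1 : zz (F t) α = 0 := by
        have h2 := hzz (F t) α
        rw [h, MvPolynomial.coeff_zero] at h2
        rw [h]
        have h3 := (mul_eq_zero.1 h2.symm).resolve_left (hcc 0)
        exact_mod_cast h3
      rw [h1, Int.cast_zero, abs_zero]
      exact (Real.exp_pos _).le
    · refine (hzzb (F t) α).trans (Real.exp_le_exp.2 ?_)
      have h1 := (hFF t _ h).2
      have h2 := logHeight_nonneg (vv t)
      linarith
  have haev : ∀ (F : MvPolynomial (Fin (n + 1)) ℚ) (_ : ∃ e ≤ d, F.IsHomogeneous e)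
      (X : Fin (n + 1) → ℚ), MvPolynomial.aeval X F =
        cc F * ∑ a : Ex (n + 1) d, (zz F (ex a) : ℚ) * ∏ i, X i ^ (a.1 i : ℕ) := by
    intro F hF' X
    obtain ⟨e, he, hF'⟩ := hF'
    rw [aeval_eq_sum F e he hF' X, Finset.mul_sum]
    refine Finset.sum_congr rfl fun a _ => ?_
    rw [hzz F (ex a)]
    ring
  set PP : Set (MvPolynomial (Fin (n + 1)) (KK L hL)) := {P | ∃ F : ℕ → MvPolynomial (Fin (n + 1)) ℚ,
    (∀ t, F t = 0 ∨ F t ∈ FF t) ∧ P = hat hL n d (fun t => zz (F t))} with hPP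
  have hPhom : ∀ P ∈ PP, ∃ e ≤ d, P.IsHomogeneous e := by
    rintro P ⟨F, hFm, rfl⟩
    obtain ⟨e, he⟩ : ∃ e : Fin (d + 1), ∀ᶠ t in (UU : Filter ℕ), (F t).IsHomogeneous (e : ℕ) := by
      refine SUI.const_of_ev (Eventually.of_forall fun t => ?_)
      obtain ⟨e, he, h⟩ := hFd F hFm t
      exact ⟨⟨e, Nat.lt_succ_of_le he⟩, h⟩
    refine ⟨(e : ℕ), Nat.lt_succ_iff.1 e.2, hat_hom hL n d e _ fun α hα => ?_⟩
    rw [← gm_zero, gm_eq]
    filter_upwards [he] with t ht
    have h2 := hzz (F t) α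
    have h3 : MvPolynomial.coeff α (F t) = 0 := by
      by_contra h4
      have h5 := ht h4
      apply hα
      rw [Finsupp.weight_apply, Finsupp.sum_fintype _ _ (by simp)] at h5
      rw [Finsupp.degree_eq_sum]
      simpa using h5
    rw [h3] at h2
    exact (mul_eq_zero.1 h2.symm).resolve_left (hcc _)
  have hFy : ∀ t, ∀ F ∈ FF t, MvPolynomial.aeval (y t) F = 0 := by
    intro t F hFm
    obtain ⟨e, -, he⟩ := (hFF t F hFm).1
    have h2 : MvPolynomial.aeval (x t) F = 0 := hF t F hFm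
    rw [hxy' t, aeval_smul F e he] at h2
    exact (mul_eq_zero.1 h2).resolve_left (pow_ne_zero _ (hc t))
  obtain ⟨l, hΛ, hcur, halt⟩ := CrvK.crvK hcs d r D hD s b hb hbi L hL n PP hPhom U hUS V
    (by
      rintro P ⟨F, hFm, rfl⟩
      simp only [hsum]
      rw [hat_eval hL n d _ (hzK F hFm), ← gm_zero]
      congr 1
      funext t
      have h1 : MvPolynomial.aeval (y t) (F t) = 0 := by
        rcases hFm t with h | h
        · rw [h, map_zero]
        · exact hFy t _ h
      rw [haev (F t) (hFd F hFm t)] at h1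
      exact (mul_eq_zero.1 h1).resolve_left (hcc _))
    (by
      by_contra h0
      push Not at h0
      have h1 : ∀ᶠ t in (UU : Filter ℕ), ∀ i, y t i = 0 := by
        refine eventually_all.2 fun i => ?_
        have h2 := h0 i
        rw [hsum, ← gm_zero, gm_eq] at h2
        exact h2
      obtain ⟨t, ht⟩ := h1.exists
      apply hx0 t
      rw [hxy t]
      funext i
      rw [Pi.smul_apply, ht i, smul_zero, Pi.zero_apply])
  -- evaluation of the curve
  set cw : ℕ → Fin (n + 1) → Polynomial ℚ :=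
    fun t => cur (fun j i => ((u t j : ℚˣ) : ℚ) * (w t (j, i) : ℚ)) l with hcw
  have hcev : ∀ (i : Fin (n + 1)) (τ : ℕ), (cur (fun j i => U j * (V j i : GG)) l i).eval (τ : GG) =
      gm (fun t => (cw t i).eval (τ : ℚ)) := by
    intro i τ
    rw [cur_eval, gm_natCast]
    have h1 : ∀ j, U j * (V j i : GG) * gm (fun _ => (τ : ℚ)) ^ (l j) =
        gm (fun t => ((u t j : ℚˣ) : ℚ) * (w t (j, i) : ℚ) * (τ : ℚ) ^ (l j)) := by
      intro j
      rw [hUV, gm_pow, gm_mul]
    simp only [h1]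
    rw [gm_sum]
    congr 1
    funext t
    rw [hcw]
    simp only
    rw [cur_eval]
  rcases halt with ⟨i, i', hii⟩ | ⟨μ, z, hμ, hz⟩
  · -- the curve is not constant
    -- nonconstancy transfers
    have hnc : ∀ᶠ t in (UU : Filter ℕ), cw t i * Polynomial.C (y t i') ≠
        cw t i' * Polynomial.C (y t i) := by
      have h1 : cur (fun j i => U j * (V j i : GG)) l i * Polynomial.C (∑ j, U j * (V j i' : GG)) -
          cur (fun j i => U j * (V j i : GG)) l i' * Polynomial.C (∑ j, U j * (V j i : GG)) ≠ 0 :=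
        sub_ne_zero.2 hii
      obtain ⟨τ, hτ⟩ : ∃ τ : ℕ, (cur (fun j i => U j * (V j i : GG)) l i *
          Polynomial.C (∑ j, U j * (V j i' : GG)) -
          cur (fun j i => U j * (V j i : GG)) l i' *
          Polynomial.C (∑ j, U j * (V j i : GG))).eval (τ : GG) ≠ 0 := by
        by_contra h2
        push Not at h2
        exact h1 (eq_zero_of_evals _ _ le_rfl fun τ _ => h2 τ)
      rw [Polynomial.eval_sub, Polynomial.eval_mul, Polynomial.eval_mul, Polynomial.eval_C,
        Polynomial.eval_C, hcev, hcev, hsum, hsum, gm_mul, gm_mul, gm_sub, gm_ne_zero] at hτ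
      filter_upwards [hτ] with t ht h2
      apply ht
      have h3 := congrArg (Polynomial.eval (τ : ℚ)) h2
      rw [Polynomial.eval_mul, Polynomial.eval_mul, Polynomial.eval_C, Polynomial.eval_C] at h3
      rw [h3, sub_self]
    -- the curve with the original coefficients
    have hcv : ∀ t i, cur (fun j i => ((u t j : ℚˣ) : ℚ) * v t j i) l i =
        Polynomial.C (c t) * cw t i := by
      intro t i
      rw [hcw]
      simp only
      unfold cur
      rw [Finset.mul_sum]
      refine Finset.sum_congr rfl fun j _ => ?_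
      have h1 : v t j i = c t * w t (j, i) := hvw t (j, i)
      simp only [h1, Polynomial.C_mul]
      ring
    have hbig : ∀ᶠ t in (UU : Filter ℕ), ∃ F ∈ FF t, MvPolynomial.aeval (cw t) F ≠ 0 := by
      filter_upwards [hnc] with t ht2
      by_contra hno'
      push Not at hno'
      apply ht2
      have h1 := hno t l hΛ (by
        intro F hFm
        obtain ⟨e, -, he⟩ := (hFF t F hFm).1
        have h2 : cur (fun j i => ((u t j : ℚˣ) : ℚ) * v t j i) l =
            fun i => Polynomial.C (c t) * cw t i := funext fun i => hcv t i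
        rw [h2, aeval_mul' F e he, hno' F hFm, mul_zero]) i i'
      have h3 : ∀ i, ∑ j, ((u t j : ℚˣ) : ℚ) * v t j i = c t * y t i := fun i =>
        congrFun (hxy' t) i
      rw [hcv, hcv, h3, h3, Polynomial.C_mul, Polynomial.C_mul] at h1
      have h4 : (Polynomial.C (c t) : Polynomial ℚ) ≠ 0 := Polynomial.C_ne_zero.2 (hc t)
      have h5 : Polynomial.C (c t) * Polynomial.C (c t) * (cw t i * Polynomial.C (y t i')) =
          Polynomial.C (c t) * Polynomial.C (c t) * (cw t i' * Polynomial.C (y t i)) := by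
        linear_combination h1
      exact mul_left_cancel₀ (mul_ne_zero h4 h4) h5
    let F : ℕ → MvPolynomial (Fin (n + 1)) ℚ := fun t =>
      if h : ∃ F ∈ FF t, MvPolynomial.aeval (cw t) F ≠ 0 then h.choose else 0
    have hFm : ∀ t, F t = 0 ∨ F t ∈ FF t := by
      intro t
      by_cases h : ∃ F ∈ FF t, MvPolynomial.aeval (cw t) F ≠ 0
      · right
        simp only [F, dif_pos h]
        exact h.choose_spec.1
      · left
        simp only [F, dif_neg h]
    have hFne : ∀ᶠ t in (UU : Filter ℕ), MvPolynomial.aeval (cw t) (F t) ≠ 0 := by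
      filter_upwards [hbig] with t h
      simp only [F, dif_pos h]
      exact h.choose_spec.2
    have hτ : ∀ τ : ℕ, ∀ᶠ t in (UU : Filter ℕ),
        (MvPolynomial.aeval (cw t) (F t)).eval (τ : ℚ) = 0 := by
      intro τ
      have h1 := eval₂_cur_eval hL _ _ (hcur (hat hL n d (fun t => zz (F t))) ⟨F, hFm, rfl⟩)
        (τ : GG)
      simp only [hcev] at h1
      rw [hat_eval hL n d _ (hzK F hFm), ← gm_zero, gm_eq] at h1
      filter_upwards [h1] with t ht
      have h2 : (MvPolynomial.aeval (cw t) (F t)).eval (τ : ℚ) =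
          MvPolynomial.aeval (fun i => (cw t i).eval (τ : ℚ)) (F t) := by
        have h3 := MvPolynomial.comp_aeval_apply (R := ℚ) (f := cw t)
          (Polynomial.aeval (R := ℚ) (τ : ℚ)) (F t)
        simp only [Polynomial.coe_aeval_eq_eval] at h3
        exact h3
      rw [h2, haev (F t) (hFd F hFm t), ht, mul_zero]
    have hall : ∀ᶠ t in (UU : Filter ℕ), ∀ τ : Fin (d * D + 1),
        (MvPolynomial.aeval (cw t) (F t)).eval ((τ : ℕ) : ℚ) = 0 :=
      eventually_all.2 fun τ => hτ τ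
    obtain ⟨t, ht1, ht2⟩ := (hall.and hFne).exists
    apply ht2
    obtain ⟨e, he, heF⟩ := hFd F hFm t
    refine eq_zero_of_evals _ (d * D) ?_ fun τ hτ => ht1 ⟨τ, Nat.lt_succ_of_le hτ⟩
    refine (natDegree_aeval_le (F t) e D heF (cw t) fun i => ?_).trans
      (Nat.mul_le_mul_right _ he)
    exact natDegree_cur_le _ l D hΛ i
  · have h1 := height_small hL y μ z hμ (fun i => by rw [← hsum, hz]) (1 / 2) (by norm_num)
    have h2 : ∀ᶠ t in (UU : Filter ℕ), 1 ≤ L t := ev_of_atTop (hL.eventually_ge_atTop 1)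
    obtain ⟨t, h3, h4⟩ := (h1.and h2).exists
    have h5 : L t ≤ 1 / 2 * L t := h3
    linarith

end Pool.Agent.TH551.SU.Uni
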